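import Pool.Agent.Lib.MP_a9c398_gt.CC.Cap

/-! The map in the affine chart: the Veronese map with the cross-caps put in, and the choice of
the small parameters. -/

open Set Filter Topology
open scoped ContDiff ComplexConjugate

namespace Pool.Agent.Lib.MP_a9c398_gt.CC

variable {k : ℕ}

/-- The centres of the holes. -/
noncomputable def cen (a : Fin k) : ℝ := 4 * (a : ℕ)

/-- A radius beyond which nothing is modified. -/
noncomputable def rad (k : ℕ) : ℝ := 4 * k + 2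

theorem cen_sep {a b : Fin k} (h : a ≠ b) : 4 ≤ |cen a - cen b| := by
  have hmn : ((a : ℕ) : ℤ) ≠ (b : ℕ) := fun he => h (Fin.ext (by exact_mod_cast he))
  have h1 : (1 : ℤ) ≤ |((a : ℕ) : ℤ) - (b : ℕ)| := Int.one_le_abs (sub_ne_zero.mpr hmn)
  have h2 : (1 : ℝ) ≤ |((a : ℕ) : ℝ) - (b : ℕ)| := by exact_mod_cast h1
  rw [cen, cen, ← mul_sub, abs_mul, abs_of_pos (by norm_num : (0 : ℝ) < 4)]
  linarith

theorem cen_sep_norm {a b : Fin k} (h : a ≠ b) : 4 ≤ ‖(cen a : ℂ) - cen b‖ := by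
  rw [← Complex.ofReal_sub, Complex.norm_real]
  exact cen_sep h

theorem norm_cen (a : Fin k) : ‖(cen a : ℂ)‖ + 2 ≤ rad k := by
  have h1 : ((a : ℕ) : ℝ) + 1 ≤ k := by exact_mod_cast a.2
  have h2 : (0 : ℝ) ≤ (a : ℕ) := Nat.cast_nonneg _
  rw [Complex.norm_real, Real.norm_eq_abs, cen, rad, abs_of_nonneg (by linarith)]
  linarith

theorem rad_ge (k : ℕ) : 2 ≤ rad k := by
  have : (0 : ℝ) ≤ k := Nat.cast_nonneg _
  unfold rad; linarith

theorem far_of_near {a b : Fin k} (h : a ≠ b) {y : ℂ} (hy : ‖y - cen a‖ ≤ 1) :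
    3 ≤ ‖y - cen b‖ := by
  have h1 := cen_sep_norm h
  have h2 : (cen a : ℂ) - cen b = (y - cen b) - (y - cen a) := by ring
  have h3 := norm_sub_le (y - cen b) (y - cen a)
  rw [h2] at h1
  linarith

theorem far_of_big (a : Fin k) {y : ℂ} (hy : rad k ≤ ‖y‖) : 2 ≤ ‖y - cen a‖ := by
  have h1 := norm_cen a
  have h2 := norm_sub_norm_le y (cen a)
  linarith

/-- The map in the affine chart. -/
noncomputable def aff (k : ℕ) (t ε : ℝ) (y : ℂ) : ℂ × ℂ :=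
  ver t (y, 1) + ∑ a : Fin k, bump (y - cen a) • (cap ε (cen a) (y - cen a) - ver t (y, 1))

theorem aff_cap (t ε : ℝ) {a : Fin k} {y : ℂ} (hy : ‖y - cen a‖ ≤ 1) :
    aff k t ε y = cap ε (cen a) (y - cen a) := by
  rw [aff, Finset.sum_eq_single a, bump_one hy]
  · simp
  · intro b _ hb
    rw [bump_zero (by linarith [far_of_near hb.symm hy]), zero_smul]
  · simp

theorem aff_out (t ε : ℝ) {y : ℂ} (hy : rad k ≤ ‖y‖) : aff k t ε y = ver t (y, 1) := by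
  rw [aff, Finset.sum_eq_zero, add_zero]
  intro a _
  rw [bump_zero (far_of_big a hy), zero_smul]

theorem aff_zero : aff k 0 0 = par := by
  ext1 y
  simp only [aff, cap_zero, ver_zero, sub_self, smul_zero, Finset.sum_const_zero, add_zero]

theorem contDiffAt_aff {A : Type} [NormedAddCommGroup A] [NormedSpace ℝ A] {n : ℕ∞}
    {t ε : A → ℝ} {y : A → ℂ} {x : A} (ht : ContDiffAt ℝ n t x)
    (hε : ContDiffAt ℝ n ε x) (hy : ContDiffAt ℝ n y x) (h0 : 0 ≤ t x)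
    (h1 : ∀ a : Fin k, y x - cen a ≠ 0) :
    ContDiffAt ℝ n (fun x => aff k (t x) (ε x) (y x)) x := by
  have hv : ContDiffAt ℝ n (fun x => ver (t x) (y x, 1)) x := by
    refine contDiffAt_ver ht (hy.prodMk contDiffAt_const) ?_
    have : 0 < den (t x) (y x, 1) := by unfold den; positivity
    exact this.ne'
  refine hv.add (ContDiffAt.sum fun a _ => ?_)
  have hζ : ContDiffAt ℝ n (fun x => y x - cen a) x := hy.sub contDiffAt_const
  exact (bump.contDiff.contDiffAt.comp x hζ).smul ((contDiffAt_cap _ hε hζ (h1 a)).sub hv)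

/-- The compact region where the map is a small perturbation of the parabola. -/
def Mid (k : ℕ) : Set ℂ := {y | ‖y‖ ≤ rad k + 1 ∧ ∀ a : Fin k, 1 / 2 ≤ ‖y - cen a‖}

theorem isCompact_Mid (k : ℕ) : IsCompact (Mid k) := by
  have : Mid k = Metric.closedBall 0 (rad k + 1) ∩
      ⋂ a : Fin k, {y : ℂ | 1 / 2 ≤ ‖y - cen a‖} := by
    ext y; simp [Mid]
  rw [this]
  exact (isCompact_closedBall _ _).inter_right
    (isClosed_iInter fun a => isClosed_le continuous_const (by fun_prop))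

/-- The properties of the small parameters that are used. -/
structure Good (k : ℕ) (t δ : ℝ) : Prop where
  t_pos : 0 < t
  δ_pos : 0 < δ
  δ_lt : δ < 1
  δ_le : δ ≤ 1 / 4
  t_small : t * (rad k + 1) ^ 4 ≤ 1
  ver_noMax : ∀ y : ℂ, ‖y‖ ≤ rad k → NoMax (fun y => ver t (y, 1)) y
  aff_noMax : ∀ y : ℂ, ‖y‖ ≤ rad k → (∀ a : Fin k, δ ^ 2 < ‖y - cen a‖) →
    NoMax (aff k t (δ ^ 2)) y
  aff_imm : ∀ y : ℂ, ‖y‖ ≤ rad k → (∀ a : Fin k, δ ^ 2 < ‖y - cen a‖) →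
    Imm (aff k t (δ ^ 2)) y
  aff_inj : InjOn (fun y => (aff k t (δ ^ 2) y).1) (Mid k)
  aff_near : ∀ y ∈ Mid k, ‖aff k t (δ ^ 2) y - par y‖ < 1 / 4

theorem exists_good (k : ℕ) : ∃ t δ : ℝ, Good k t δ := by
  have hK := isCompact_Mid k
  let Φ : ℝ × ℝ → ℂ → ℂ × ℂ := fun s y => aff k s.1 s.2 y
  let Φ' : ℝ × ℝ → ℂ → ℂ × ℂ := fun s y => ver s.1 (y, 1)
  have hΦ : ∀ y ∈ Mid k, ContDiffAt ℝ (2 : ℕ) (Function.uncurry Φ) (0, y) := by
    intro y hy
    refine contDiffAt_aff (n := (2 : ℕ)) (t := fun q : (ℝ × ℝ) × ℂ => q.1.1)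
      (ε := fun q => q.1.2) (y := fun q => q.2)
      (by fun_prop) (by fun_prop) (by fun_prop) le_rfl fun a h => ?_
    have := hy.2 a
    simp only at h
    rw [h] at this
    norm_num at this
  have hΦ' : ∀ y ∈ Metric.closedBall (0 : ℂ) (rad k),
      ContDiffAt ℝ (2 : ℕ) (Function.uncurry Φ') (0, y) := by
    intro y _
    refine contDiffAt_ver (t := fun q : (ℝ × ℝ) × ℂ => q.1.1) (p := fun q => (q.2, 1))
      (by fun_prop) (by fun_prop) ?_
    simp [den]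
  have e1 := perturb_noMax hK (Φ := Φ) aff_zero hΦ
  have e2 := perturb_imm hK (Φ := Φ) aff_zero hΦ
  have e3 := perturb_noMax (isCompact_closedBall (0 : ℂ) (rad k)) (Φ := Φ')
    (by ext1 y; exact ver_zero y) hΦ'
  have e4 := perturb_inj hK (Φ := Φ) aff_zero hΦ
  have e5 := perturb_near hK (Φ := Φ) aff_zero hΦ
  have hlim : Tendsto (fun δ : ℝ => (δ, δ ^ 2)) (𝓝[>] 0) (𝓝 (0 : ℝ × ℝ)) := by
    have : Continuous fun δ : ℝ => (δ, δ ^ 2) := by fun_prop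
    exact (this.tendsto' 0 0 (by simp)).mono_left nhdsWithin_le_nhds
  have hlt : ∀ᶠ δ : ℝ in 𝓝[>] 0, δ < 1 / 4 := nhdsWithin_le_nhds (gt_mem_nhds (by norm_num))
  have hsm : ∀ᶠ δ : ℝ in 𝓝[>] 0, δ * (rad k + 1) ^ 4 < 1 := by
    have : Continuous fun δ : ℝ => δ * (rad k + 1) ^ 4 := by fun_prop
    exact nhdsWithin_le_nhds ((this.tendsto 0).eventually (gt_mem_nhds (by simp)))
  obtain ⟨δ, ⟨h1, h2, h3, h6, h7⟩, h4, h8, h5⟩ :=
    ((hlim.eventually (e1.and (e2.and (e3.and (e4.and e5))))).and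
      (hlt.and (hsm.and self_mem_nhdsWithin))).exists
  have hδ : 0 < δ := h5
  have hε : 0 < δ ^ 2 := pow_pos hδ 2
  have hcap : ∀ (a : Fin k) (y : ℂ), ‖y - cen a‖ < 1 →
      (fun y => cap (δ ^ 2) (cen a) (y - cen a)) =ᶠ[𝓝 y] aff k δ (δ ^ 2) := by
    intro a y hy
    have : ∀ᶠ y' in 𝓝 y, ‖y' - (cen a : ℂ)‖ < 1 :=
      (isOpen_lt (by fun_prop) continuous_const).mem_nhds hy
    filter_upwards [this] with y' hy'
    rw [aff_cap _ _ hy'.le]
  have hcase : ∀ y : ℂ, ‖y‖ ≤ rad k → y ∈ Mid k ∨ ∃ a : Fin k, ‖y - cen a‖ < 1 := by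
    intro y hy
    by_cases h : ∃ a : Fin k, ‖y - cen a‖ < 1
    · exact Or.inr h
    · push Not at h
      exact Or.inl ⟨by linarith, fun a => by linarith [h a]⟩
  refine ⟨δ, δ, hδ, hδ, by linarith, h4.le, h8.le, fun y hy => h3 y (by simpa using hy),
    fun y hy hy' => ?_, fun y hy hy' => ?_, h6, h7⟩
  · rcases hcase y hy with h | ⟨a, ha⟩
    · exact h1 y h
    · exact (cap_noMax _ _ (norm_pos_iff.mp (hε.trans (hy' a)))).congr (hcap a y ha)
  · rcases hcase y hy with h | ⟨a, ha⟩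
    · exact h2 y h
    · exact (cap_imm hε (norm_pos_iff.mp (hε.trans (hy' a)))).congr (hcap a y ha)

variable {t δ : ℝ}

theorem norm_div_conj_le (h0 : 0 < δ) {ζ : ℂ} (h : δ ≤ ‖ζ‖) :
    ‖((δ ^ 2 : ℝ) : ℂ) / conj ζ‖ ≤ δ := by
  rw [norm_div, Complex.norm_conj, Complex.norm_real, Real.norm_of_nonneg (by positivity),
    div_le_iff₀ (h0.trans_le h)]
  nlinarith

theorem Good.fst_near (G : Good k t δ) {y : ℂ} (h1 : ‖y‖ ≤ rad k + 1)
    (h2 : ∀ a : Fin k, δ ≤ ‖y - cen a‖) : ‖(aff k t (δ ^ 2) y).1 - y‖ ≤ 1 / 4 := by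
  by_cases h : ∃ a : Fin k, ‖y - cen a‖ < 1 / 2
  · obtain ⟨a, ha⟩ := h
    rw [aff_cap _ _ (a := a) (by linarith)]
    have e : (cap (δ ^ 2) (cen a) (y - cen a)).1 - y = -(((δ ^ 2 : ℝ) : ℂ) / conj (y - cen a)) := by
      simp only [cap]; ring
    rw [e, norm_neg]
    exact (norm_div_conj_le G.δ_pos (h2 a)).trans G.δ_le
  · push Not at h
    exact ((norm_fst_le (aff k t (δ ^ 2) y - par y)).trans (G.aff_near y ⟨h1, h⟩).le :)

theorem Good.snd_le (G : Good k t δ) {y : ℂ} (h1 : ‖y‖ ≤ rad k)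
    (h2 : ∀ a : Fin k, δ ≤ ‖y - cen a‖) : ‖(aff k t (δ ^ 2) y).2‖ ≤ rad k ^ 2 + rad k := by
  have hR := rad_ge k
  have hy : ‖y ^ 2‖ ≤ rad k ^ 2 := by
    rw [norm_pow]; exact pow_le_pow_left₀ (norm_nonneg _) h1 2
  suffices H : ‖(aff k t (δ ^ 2) y).2 - y ^ 2‖ ≤ rad k by
    have := norm_add_le ((aff k t (δ ^ 2) y).2 - y ^ 2) (y ^ 2)
    rw [sub_add_cancel] at this
    linarith
  by_cases h : ∃ a : Fin k, ‖y - cen a‖ < 1 / 2
  · obtain ⟨a, ha⟩ := h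
    rw [aff_cap _ _ (a := a) (by linarith)]
    have hη := (norm_div_conj_le G.δ_pos (h2 a)).trans G.δ_le
    have e : (cap (δ ^ 2) (cen a) (y - cen a)).2 - y ^ 2 =
        (((δ ^ 2 : ℝ) : ℂ) / conj (y - cen a)) *
          ((((δ ^ 2 : ℝ) : ℂ) / conj (y - cen a)) - 2 * cen a) := by
      simp only [cap]; ring
    rw [e, norm_mul]
    generalize ((δ ^ 2 : ℝ) : ℂ) / conj (y - cen a) = η at hη
    have h3 := norm_sub_le η (2 * cen a)
    rw [norm_mul, Complex.norm_two] at h3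
    have h4 := norm_cen a
    nlinarith [norm_nonneg η, norm_nonneg (η - 2 * cen a), norm_nonneg (cen a : ℂ)]
  · push Not at h
    have h3 : ‖(aff k t (δ ^ 2) y).2 - y ^ 2‖ ≤ 1 / 4 :=
      ((norm_snd_le (aff k t (δ ^ 2) y - par y)).trans (G.aff_near y ⟨by linarith, h⟩).le :)
    linarith

theorem Good.snd_gt (G : Good k t δ) {p : ℂ × ℝ} (hp : p ≠ 0)
    (h : (rad k + 1) * |p.2| ≤ ‖p.1‖) : rad k ^ 2 + rad k < ‖(ver t p).2‖ := by
  have hR := rad_ge k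
  have hd := den_pos G.t_pos hp
  have ht := G.t_pos
  have hs := G.t_small
  rw [norm_ver_snd ht hp, ← div_eq_inv_mul, lt_div_iff₀ hd, den_eq]
  have hu : 0 < ‖p.1‖ := by
    refine norm_pos_iff.mpr fun h0 => hp (Prod.ext h0 ?_)
    rw [h0, norm_zero] at h
    have : |p.2| ≤ 0 := by nlinarith [abs_nonneg p.2]
    exact abs_nonpos_iff.mp this
  have h1 : (rad k + 1) ^ 2 * p.2 ^ 2 ≤ ‖p.1‖ ^ 2 := by
    rw [← sq_abs p.2, ← mul_pow]
    exact pow_le_pow_left₀ (by positivity) h 2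
  have h2 : 0 < ‖p.1‖ ^ 2 := by positivity
  generalize ‖p.1‖ ^ 2 = U at h1 h2
  generalize p.2 ^ 2 = Z at h1
  generalize rad k = R at *
  have h3 : 0 < (R + 1) ^ 2 := by positivity
  have h4 : t * (R ^ 2 + R) * (R + 1) ^ 2 ≤ 1 := by
    have : t * (R ^ 2 + R) * (R + 1) ^ 2 ≤ t * (R + 1) ^ 2 * (R + 1) ^ 2 := by
      gcongr; nlinarith
    nlinarith
  apply lt_of_mul_lt_mul_left _ h3.le
  have h5 : 0 ≤ R ^ 2 + R := by positivity
  nlinarith [mul_le_mul_of_nonneg_left h1 h5, mul_le_mul_of_nonneg_right h4 h2.le,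
    mul_pos h2 (by linarith : 0 < R)]

theorem Good.aff_eq (G : Good k t δ) {y y' : ℂ} (h1 : ‖y‖ ≤ rad k + 1)
    (h2 : ∀ a : Fin k, δ ≤ ‖y - cen a‖) (h1' : ‖y'‖ ≤ rad k + 1)
    (h2' : ∀ a : Fin k, δ ≤ ‖y' - cen a‖) (h : aff k t (δ ^ 2) y = aff k t (δ ^ 2) y') :
    y = y' ∨ ∃ a : Fin k, conj (y - cen a) * (y' - cen a) = -((δ ^ 2 : ℝ) : ℂ) := by
  have n1 := G.fst_near h1 h2
  have n2 := G.fst_near h1' h2'
  have n3 : ‖y - y'‖ ≤ 1 / 2 := by
    have := norm_sub_le ((aff k t (δ ^ 2) y').1 - y') ((aff k t (δ ^ 2) y).1 - y)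
    rw [h, sub_sub_sub_cancel_left] at this
    rw [h] at n1
    linarith
  by_cases hc : ∃ a : Fin k, ‖y - cen a‖ ≤ 1 ∧ ‖y' - cen a‖ ≤ 1
  · obtain ⟨a, ha, ha'⟩ := hc
    rw [aff_cap _ _ ha, aff_cap _ _ ha'] at h
    rcases cap_inj (norm_pos_iff.mp (G.δ_pos.trans_le (h2 a))) h with h3 | h3
    · exact Or.inl (sub_left_injective h3)
    · exact Or.inr ⟨a, h3⟩
  · refine Or.inl (G.aff_inj ⟨h1, fun a => ?_⟩ ⟨h1', fun a => ?_⟩ (congrArg Prod.fst h))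
    · by_contra hn
      have := norm_sub_le (y - cen a) (y - y')
      rw [sub_sub_sub_cancel_left] at this
      exact hc ⟨a, by linarith, by linarith⟩
    · by_contra hn
      have := norm_add_le (y - y') (y' - cen a)
      rw [sub_add_sub_cancel] at this
      exact hc ⟨a, by linarith, by linarith⟩

end Pool.Agent.Lib.MP_a9c398_gt.CC
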