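import Pool.Agent.Lib.MP_a9c398_gt.Surface

/-! The harmonic cross-cap at a point of the parabola, and injectivity lemmas. -/

open Set Filter Topology
open scoped ContDiff ComplexConjugate

namespace Pool.Agent.Lib.MP_a9c398_gt.CC

/-- The cross-cap at the point `c` of the parabola, in the coordinate `ζ = y - c`.
All four real coordinates are harmonic functions of `ζ`. -/
noncomputable def cap (ε c : ℝ) (ζ : ℂ) : ℂ × ℂ :=
  (c + ζ - ε / conj ζ, (c + ζ) ^ 2 - 2 * c * (ε / conj ζ) + (ε / conj ζ) ^ 2)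

theorem cap_zero (c : ℝ) (y : ℂ) : cap 0 c (y - c) = par y := by
  simp [cap, par]

theorem cap_symm {ε c : ℝ} (hε : 0 < ε) {ζ ζ' : ℂ} (h : conj ζ * ζ' = -ε) :
    cap ε c ζ' = cap ε c ζ := by
  have hne : conj ζ * ζ' ≠ 0 := by
    rw [h, neg_ne_zero]; exact_mod_cast hε.ne'
  have h1 : conj ζ ≠ 0 := left_ne_zero_of_mul hne
  have h2 : conj ζ' ≠ 0 := (map_ne_zero _).mpr (right_ne_zero_of_mul hne)
  have h' : ζ * conj ζ' = -ε := by simpa using congrArg conj h
  have e1 : (ε : ℂ) / conj ζ = -ζ' := by rw [div_eq_iff h1]; linear_combination h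
  have e2 : (ε : ℂ) / conj ζ' = -ζ := by rw [div_eq_iff h2]; linear_combination h'
  simp only [cap, e1, e2]
  ext
  · simp only; ring
  · simp only; ring

theorem contDiffAt_cap {A : Type} [NormedAddCommGroup A] [NormedSpace ℝ A] {n : WithTop ℕ∞}
    {ε : A → ℝ} {ζ : A → ℂ} (c : ℝ) {x : A}
    (hε : ContDiffAt ℝ n ε x) (hζ : ContDiffAt ℝ n ζ x) (h0 : ζ x ≠ 0) :
    ContDiffAt ℝ n (fun x => cap (ε x) c (ζ x)) x := by
  have hre : ContDiffAt ℝ n (fun x => (ε x : ℂ)) x :=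
    Complex.ofRealCLM.contDiff.contDiffAt.comp x hε
  have hc : ContDiffAt ℝ n (fun x => conj (ζ x)) x :=
    Complex.conjCLE.contDiff.contDiffAt.comp x hζ
  have hq : ContDiffAt ℝ n (fun x => (ε x : ℂ) / conj (ζ x)) x := by
    simp only [div_eq_mul_inv]
    exact hre.mul (hc.inv ((map_ne_zero _).mpr h0))
  unfold cap
  refine ContDiffAt.prodMk ?_ ?_
  · exact (contDiffAt_const.add hζ).sub hq
  · exact (((contDiffAt_const.add hζ).pow 2).sub (contDiffAt_const.mul hq)).add (hq.pow 2)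

theorem cap_noMax (ε c : ℝ) {y : ℂ} (hy : y - c ≠ 0) : NoMax (fun y => cap ε c (y - c)) y := by
  intro a b hab hm
  set ζ₀ : ℂ := y - c with hζ₀
  let G : ℂ → ℂ := fun ζ => a * (c + ζ) + b * (c + ζ) ^ 2 - conj (a + 2 * b * c) * (ε / ζ) +
    conj b * (ε / ζ) ^ 2
  have hm' : IsLocalMax (fun ζ => lf a b (cap ε c ζ)) ζ₀ := by
    have h1 : IsLocalMax (fun y' => lf a b (cap ε c (y' - c))) (ζ₀ + c) := by
      simpa [hζ₀] using hm
    have h2 := IsLocalMax.comp_continuous (g := fun ζ : ℂ => ζ + c) h1 (by fun_prop)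
    refine h2.congr (Eventually.of_forall fun ζ => ?_)
    simp
  have hne : ∀ᶠ ζ in 𝓝 ζ₀, ζ ≠ 0 := isOpen_ne.mem_nhds hy
  have hre : ∀ ζ : ℂ, (G ζ).re = lf a b (cap ε c ζ) := by
    intro ζ
    have e1 : (ε : ℂ) / ζ = conj (ε / conj ζ) := by simp
    have e2 : G ζ = a * (c + ζ) + b * (c + ζ) ^ 2 +
        conj (-((a + 2 * b * c) * (ε / conj ζ)) + b * (ε / conj ζ) ^ 2) := by
      simp only [G, e1, map_add (starRingEnd ℂ) (-_), map_neg, map_mul, map_pow]
      ring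
    have e3 : a * (cap ε c ζ).1 + b * (cap ε c ζ).2 = a * (c + ζ) + b * (c + ζ) ^ 2 +
        (-((a + 2 * b * c) * (ε / conj ζ)) + b * (ε / conj ζ) ^ 2) := by
      simp only [cap]; ring
    rw [lf, e2, e3, Complex.add_re, Complex.conj_re, ← Complex.add_re]
  have hder : ∀ ζ : ℂ, ζ ≠ 0 → HasDerivAt G
      (a + b * (2 * (c + ζ)) + conj (a + 2 * b * c) * (ε / ζ ^ 2) -
        conj b * (2 * ε ^ 2 / ζ ^ 3)) ζ := by
    intro ζ hζ
    have hq : HasDerivAt (fun ζ : ℂ => (ε : ℂ) / ζ) (-(ε / ζ ^ 2)) ζ := by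
      refine ((hasDerivAt_const ζ (ε : ℂ)).div (hasDerivAt_id ζ) hζ).congr_deriv ?_
      simp only [id]; field_simp; ring
    have hi : HasDerivAt (fun ζ : ℂ => (c : ℂ) + ζ) 1 ζ := (hasDerivAt_id ζ).const_add _
    refine ((((hi.const_mul a).add ((hi.pow 2).const_mul b)).sub
      (hq.const_mul (conj (a + 2 * b * c)))).add ((hq.pow 2).const_mul (conj b))).congr_deriv ?_
    simp only [Nat.cast_ofNat, Nat.add_one_sub_one, pow_one]; field_simp; ring
  have hmax : IsLocalMax (norm ∘ fun ζ => Complex.exp (G ζ)) ζ₀ := by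
    filter_upwards [hm'] with ζ h1
    simp only [Function.comp, Complex.norm_exp]
    rw [hre ζ, hre ζ₀]
    exact Real.exp_le_exp.mpr h1
  have hconst := Complex.eventually_eq_of_isLocalMax_norm (f := fun ζ => Complex.exp (G ζ))
    (by
      filter_upwards [hne] with ζ h1
      exact (hder ζ h1).differentiableAt.cexp) hmax
  have hpoly : ∀ᶠ ζ in 𝓝 ζ₀, 2 * b * ζ ^ 4 + (a + 2 * b * c) * ζ ^ 3 +
      (conj (a + 2 * b * c) * ε) * ζ + (-(2 * conj b * ε ^ 2)) = 0 := by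
    filter_upwards [hconst.eventually_nhds, hne] with ζ h1 h2
    have h4 := (hder ζ h2).cexp
    have h5 : HasDerivAt (fun ζ => Complex.exp (G ζ)) 0 ζ :=
      (hasDerivAt_const ζ (Complex.exp (G ζ₀))).congr_of_eventuallyEq h1
    have h6 := (mul_eq_zero.mp (h4.unique h5)).resolve_left (Complex.exp_ne_zero _)
    have h7 : (a + b * (2 * (c + ζ)) + conj (a + 2 * b * c) * (ε / ζ ^ 2) -
        conj b * (2 * ε ^ 2 / ζ ^ 3)) * ζ ^ 3 = 0 := by rw [h6, zero_mul]
    rw [← h7]; field_simp; ring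
  let p : Polynomial ℂ := Polynomial.C (2 * b) * Polynomial.X ^ 4 +
    Polynomial.C (a + 2 * b * c) * Polynomial.X ^ 3 +
    Polynomial.C (conj (a + 2 * b * c) * ε) * Polynomial.X + Polynomial.C (-(2 * conj b * ε ^ 2))
  have hp : p = 0 := by
    apply Polynomial.eq_zero_of_infinite_isRoot
    refine (infinite_of_mem_nhds ζ₀ hpoly).mono fun ζ hζ => ?_
    simpa only [p, mem_ofPred_eq, Polynomial.IsRoot, Polynomial.eval_add, Polynomial.eval_mul,
      Polynomial.eval_C, Polynomial.eval_pow, Polynomial.eval_X] using hζ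
  have h4 : p.coeff 4 = 2 * b := by
    simp only [p, Polynomial.coeff_add, Polynomial.coeff_C_mul, Polynomial.coeff_X_pow,
      Polynomial.coeff_X, Polynomial.coeff_C]
    simp
  have h3 : p.coeff 3 = a + 2 * b * c := by
    simp only [p, Polynomial.coeff_add, Polynomial.coeff_C_mul, Polynomial.coeff_X_pow,
      Polynomial.coeff_X, Polynomial.coeff_C]
    simp
  rw [hp, Polynomial.coeff_zero] at h4 h3
  have hb : b = 0 := by simpa using h4.symm
  have ha : a = 0 := by simpa [hb] using h3.symm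
  rcases hab with h | h
  · exact h ha
  · exact h hb

theorem cap_imm {ε c : ℝ} (hε : 0 < ε) {y : ℂ} (hy : y - c ≠ 0) :
    Imm (fun y => cap ε c (y - c)) y := by
  intro e he
  set ζ : ℂ := y - c with hζd
  have hζ : conj ζ ≠ 0 := (map_ne_zero _).mpr hy
  have he' : HasDerivAt (fun τ : ℝ => cap ε c (ζ + τ • e)) 0 0 := by
    refine he.congr_of_eventuallyEq (Eventually.of_forall fun τ => ?_)
    simp only [hζd]; congr 1; ring
  have hi : HasDerivAt (fun τ : ℝ => ζ + τ • e) e 0 := by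
    simpa using ((hasDerivAt_id (0 : ℝ)).smul_const e).const_add ζ
  have hj : HasDerivAt (fun τ : ℝ => conj (ζ + τ • e)) (conj e) 0 :=
    Complex.conjCLE.hasFDerivAt.comp_hasDerivAt (0 : ℝ) hi
  obtain ⟨η, hq⟩ : ∃ η, HasDerivAt (fun τ : ℝ => (ε : ℂ) / conj (ζ + τ • e)) η 0 :=
    ⟨_, (hasDerivAt_const (0 : ℝ) (ε : ℂ)).div hj (by simpa using hy)⟩
  have d1 : HasDerivAt (fun τ : ℝ => (cap ε c (ζ + τ • e)).1) (e - η) 0 :=
    (hi.const_add (c : ℂ)).sub hq
  have d2 : HasDerivAt (fun τ : ℝ => (cap ε c (ζ + τ • e)).2)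
      (2 * (c + ζ) * e - 2 * c * η + 2 * (ε / conj ζ) * η) 0 := by
    refine ((((hi.const_add (c : ℂ)).pow 2).sub (hq.const_mul (2 * (c : ℂ)))).add
      (hq.pow 2)).congr_deriv ?_
    simp only [zero_smul, add_zero, Nat.cast_ofNat, Nat.add_one_sub_one, pow_one]
  have z1 := d1.unique (((ContinuousLinearMap.fst ℝ ℂ ℂ).hasFDerivAt.comp_hasDerivAt (0 : ℝ)
    he').congr_deriv (map_zero _))
  have z2 := d2.unique (((ContinuousLinearMap.snd ℝ ℂ ℂ).hasFDerivAt.comp_hasDerivAt (0 : ℝ)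
    he').congr_deriv (map_zero _))
  have hfac : 2 * e * (ζ + ε / conj ζ) = 0 := by
    linear_combination z2 - (2 * c - 2 * (ε / conj ζ)) * z1
  have hne : ζ + ε / conj ζ ≠ 0 := by
    intro h
    have h1 : ζ * conj ζ + ε = 0 := by
      have := congrArg (· * conj ζ) h
      simpa [add_mul, div_mul_cancel₀ _ hζ] using this
    rw [Complex.mul_conj] at h1
    have h2 : Complex.normSq ζ + ε = 0 := by exact_mod_cast h1
    linarith [Complex.normSq_nonneg ζ]
  simpa using (mul_eq_zero.mp hfac).resolve_right hne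

theorem cap_inj {ε c : ℝ} {ζ ζ' : ℂ} (hζ : ζ ≠ 0) (h : cap ε c ζ = cap ε c ζ') :
    ζ = ζ' ∨ conj ζ * ζ' = -ε := by
  have h1 := congrArg Prod.fst h
  have h2 := congrArg Prod.snd h
  simp only [cap] at h1 h2
  have hc : conj ζ ≠ 0 := (map_ne_zero _).mpr hζ
  have hη : conj ζ * (ε / conj ζ) = ε := mul_div_cancel₀ _ hc
  generalize (ε : ℂ) / conj ζ = η at h1 h2 hη
  generalize (ε : ℂ) / conj ζ' = η' at h1 h2
  have h3 : 2 * ((ζ' - ζ) * (ζ' + η)) = 0 := by
    linear_combination (2 * c + ζ - η - η' - ζ') * h1 - h2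
  rcases mul_eq_zero.mp ((mul_eq_zero.mp h3).resolve_left two_ne_zero) with h4 | h4
  · exact Or.inl (sub_eq_zero.mp h4).symm
  · exact Or.inr (by linear_combination conj ζ * h4 - hη)

theorem perturb_inj {S : Type} [NormedAddCommGroup S] [NormedSpace ℝ S] {Φ : S → ℂ → ℂ × ℂ}
    {K : Set ℂ} (hK : IsCompact K) (h0 : Φ 0 = par)
    (hsm : ∀ y ∈ K, ContDiffAt ℝ (2 : ℕ) (Function.uncurry Φ) (0, y)) :
    ∀ᶠ s in 𝓝 (0 : S), InjOn (fun y => (Φ s y).1) K := by
  let P : S → ℂ × ℂ → Prop := fun s w => (Φ s w.1).1 = (Φ s w.2).1 → w.1 = w.2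
  have key : ∀ᶠ s in 𝓝 (0 : S), ∀ w ∈ K ×ˢ K, P s w := by
    refine (hK.prod hK).eventually_forall_of_forall_eventually ?_
    rintro ⟨y, y'⟩ ⟨hy, hy'⟩
    have t1 : Tendsto (fun z : S × (ℂ × ℂ) => (z.1, z.2.1)) (𝓝 (0, y, y')) (𝓝 (0, y)) :=
      (by fun_prop : Continuous fun z : S × (ℂ × ℂ) => (z.1, z.2.1)).tendsto _
    have t2 : Tendsto (fun z : S × (ℂ × ℂ) => (z.1, z.2.2)) (𝓝 (0, y, y')) (𝓝 (0, y')) :=
      (by fun_prop : Continuous fun z : S × (ℂ × ℂ) => (z.1, z.2.2)).tendsto _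
    by_cases hyy : y = y'
    · subst hyy
      have hd : ContDiffAt ℝ (2 : ℕ) (fun z : S × ℂ => (Φ z.1 z.2).1) (0, y) := (hsm y hy).fst
      have hs := hd.hasStrictFDerivAt (by simp)
      set L := fderiv ℝ (fun z : S × ℂ => (Φ z.1 z.2).1) (0, y) with hL
      have hLe : ∀ e : ℂ, L (0, e) = e := by
        intro e
        have a1 : HasFDerivAt (fun x : ℂ => ((0 : S), x)) (ContinuousLinearMap.inr ℝ S ℂ) y :=
          hasFDerivAt_prodMk_right 0 y
        have a2 := HasFDerivAt.comp (g := fun z : S × ℂ => (Φ z.1 z.2).1) y hs.hasFDerivAt a1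
        have a3 : ((fun z : S × ℂ => (Φ z.1 z.2).1) ∘ fun x : ℂ => ((0 : S), x)) = id := by
          ext x; simp [h0, par]
        rw [a3] at a2
        have a4 := a2.unique (hasFDerivAt_id y)
        simpa using congrArg (fun T : ℂ →L[ℝ] ℂ => T e) a4
      have hb := (hasStrictFDerivAt_iff_isLittleO.mp hs).def (c := 1 / 2) (by norm_num)
      filter_upwards [(t1.prodMk_nhds t2).eventually hb] with z hz heq
      rw [heq, sub_self, Prod.mk_sub_mk, sub_self, hLe, zero_sub, norm_neg, Prod.norm_mk,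
        norm_zero, max_eq_right (norm_nonneg _)] at hz
      exact sub_eq_zero.mp (norm_eq_zero.mp (by linarith [norm_nonneg (z.2.1 - z.2.2)]))
    · have c1 := ((hsm y hy).continuousAt.fst.tendsto.comp t1).sub
        ((hsm y' hy').continuousAt.fst.tendsto.comp t2)
      have hne : (Function.uncurry Φ (0, y)).1 - (Function.uncurry Φ (0, y')).1 ≠ 0 := by
        simpa [h0, par, sub_eq_zero] using hyy
      filter_upwards [c1.eventually_ne hne] with z hz heq
      exact absurd (sub_eq_zero.mpr heq) hz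
  filter_upwards [key] with s hs y hy y' hy' h using hs (y, y') ⟨hy, hy'⟩ h

theorem perturb_near {S : Type} [NormedAddCommGroup S] [NormedSpace ℝ S] {Φ : S → ℂ → ℂ × ℂ}
    {K : Set ℂ} (hK : IsCompact K) (h0 : Φ 0 = par)
    (hsm : ∀ y ∈ K, ContDiffAt ℝ (2 : ℕ) (Function.uncurry Φ) (0, y)) :
    ∀ᶠ s in 𝓝 (0 : S), ∀ y ∈ K, ‖Φ s y - par y‖ < 1 / 4 := by
  refine hK.eventually_forall_of_forall_eventually fun y hy => ?_
  have c1 : ContinuousAt (fun z : S × ℂ => ‖Φ z.1 z.2 - par z.2‖) (0, y) :=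
    ((hsm y hy).continuousAt.sub (by unfold par; fun_prop)).norm
  refine c1.eventually (gt_mem_nhds ?_)
  simp [h0]

theorem norm_ver_snd {t : ℝ} (ht : 0 < t) {p : ℂ × ℝ} (hp : p ≠ 0) :
    ‖(ver t p).2‖ = (den t p)⁻¹ * ‖p.1‖ ^ 2 := by
  simp only [ver, num, Prod.smul_snd, norm_smul, norm_pow, Real.norm_eq_abs]
  rw [abs_of_pos (inv_pos.mpr (den_pos ht hp))]

theorem den_eq (t : ℝ) (p : ℂ × ℝ) : den t p = p.2 ^ 2 + t * ‖p.1‖ ^ 2 := by
  rw [den, Complex.sq_norm, Complex.normSq_apply]; ring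

theorem ver_inj {t : ℝ} (ht : 0 < t) {p p' : ℂ × ℝ} (hp : p ≠ 0) (hp' : p' ≠ 0)
    (h : ver t p = ver t p') : ∃ r : ℝ, p' = r • p := by
  have hd := den_pos ht hp
  have hd' := den_pos ht hp'
  have hn := norm_ver_snd ht hp
  rw [h, norm_ver_snd ht hp'] at hn
  obtain ⟨μ, hμ0, hμ⟩ : ∃ μ : ℝ, 0 < μ ∧ den t p' = μ * den t p :=
    ⟨den t p' / den t p, div_pos hd' hd, by field_simp⟩
  have hnum : num p' = μ • num p := by
    have e : num p' = den t p' • ver t p' := by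
      rw [ver, smul_smul, mul_inv_cancel₀ hd'.ne', one_smul]
    rw [e, ← h, ver, smul_smul, hμ, mul_assoc, mul_inv_cancel₀ hd.ne', mul_one]
  have e1 : (p'.2 : ℂ) * p'.1 = μ * (p.2 * p.1) := congrArg Prod.fst hnum
  have e2 : p'.1 ^ 2 = μ * p.1 ^ 2 := congrArg Prod.snd hnum
  have e3 : ‖p'.1‖ ^ 2 = μ * ‖p.1‖ ^ 2 := by
    rw [← norm_pow, e2, norm_mul, norm_pow, Complex.norm_real, Real.norm_of_nonneg hμ0.le]
  have e4 : p'.2 ^ 2 = μ * p.2 ^ 2 := by
    rw [den_eq, den_eq, e3] at hμ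
    linarith
  have e5 : (p'.2 : ℂ) ^ 2 = μ * (p.2 : ℂ) ^ 2 := by exact_mod_cast e4
  have e6 : p.1 * p'.2 - p'.1 * p.2 = 0 := by
    apply pow_eq_zero_iff two_ne_zero |>.mp
    linear_combination p.1 ^ 2 * e5 + (p.2 : ℂ) ^ 2 * e2 - 2 * p.1 * p.2 * e1
  have e7 : (conj p.1 * p'.1) ^ 2 = ((μ * Complex.normSq p.1 ^ 2 : ℝ) : ℂ) := by
    push_cast
    rw [← Complex.mul_conj]
    linear_combination conj p.1 ^ 2 * e2
  have e8 : (conj p.1 * p'.1).im = 0 := by
    generalize conj p.1 * p'.1 = w at e7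
    have r1 := congrArg Complex.re e7
    have r2 := congrArg Complex.im e7
    rw [pow_two, Complex.mul_re, Complex.ofReal_re] at r1
    rw [pow_two, Complex.mul_im, Complex.ofReal_im] at r2
    have r3 : 0 ≤ μ * Complex.normSq p.1 ^ 2 := by positivity
    by_contra hcon
    have r4 : w.re = 0 := by
      have : w.re * w.im = 0 := by linarith
      exact (mul_eq_zero.mp this).resolve_right hcon
    rw [r4] at r1
    nlinarith [mul_self_pos.mpr hcon]
  rw [exists_smul_iff hp]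
  have r1 := congrArg Complex.re e6
  have r2 := congrArg Complex.im e6
  simp only [Complex.sub_re, Complex.sub_im, Complex.re_mul_ofReal, Complex.im_mul_ofReal,
    Complex.zero_re, Complex.zero_im] at r1 r2
  simp only [Complex.mul_im, Complex.conj_re, Complex.conj_im] at e8
  exact ⟨by linarith, by linarith, by linarith⟩

end Pool.Agent.Lib.MP_a9c398_gt.CC
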