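import Mathlib

/-!
The connected sum of `g` real projective planes, as a sphere with `g` cross-caps: a closed disc
with `g - 1` holes, with antipodal points identified on each of the `g` boundary circles.
-/

namespace Pool.Agent.Lib.MP_a9c398_gt.CC

/-- The closed disc of radius `R` about `0` in the plane, minus the open discs of radius `δ`
about the `k` points `c i`. -/
def CapDisc {k : ℕ} (R δ : ℝ) (c : Fin k → ℂ) : Set ℂ :=
  {x | ‖x‖ ≤ R ∧ ∀ i, δ ≤ ‖x - c i‖}

/-- `M` is the connected sum of `g` projective planes: it is the quotient of a closed disc with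
`k = g - 1` holes (pairwise disjoint closed discs of radius `δ` in the interior), where exactly the
following points are identified: antipodal points `x, -x` of the outer circle, and for each `i`
antipodal points `c i + u, c i - u` (`‖u‖ = δ`) of the `i`-th inner circle. -/
def IsSumOfProjectivePlanes (g : ℕ) (M : Type) [TopologicalSpace M] : Prop :=
  ∃ (k : ℕ) (R δ : ℝ) (c : Fin k → ℂ), g = k + 1 ∧ 0 < R ∧ 0 < δ ∧ (∀ i, ‖c i‖ + δ < R) ∧
    (∀ i j, i ≠ j → 2 * δ < ‖c i - c j‖) ∧
    ∃ q : CapDisc R δ c → M, Topology.IsQuotientMap q ∧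
      ∀ x y : CapDisc R δ c, q x = q y ↔
        (x = y ∨ (‖(x : ℂ)‖ = R ∧ (y : ℂ) = -(x : ℂ)) ∨
          ∃ i : Fin k, ‖(x : ℂ) - c i‖ = δ ∧ (y : ℂ) - c i = -((x : ℂ) - c i))

end Pool.Agent.Lib.MP_a9c398_gt.CC
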