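import Pool.Agent.Lib.MP_a9c398_gt.CC.Surf
import Pool.Agent.Lib.MP_a9c398_gt.CC.Defs

/-! The surface is the connected sum of `k + 1` projective planes. -/

open Set Filter Topology
open scoped ComplexConjugate

namespace Pool.Agent.Lib.MP_a9c398_gt.CC

variable {k : ℕ} {δ : ℝ}

/-- The last homogeneous coordinate of a point of the closed disc. -/
noncomputable def wt (k : ℕ) (x : ℂ) : ℝ := min 1 (rad k + 1 - ‖x‖)

theorem wt_one {x : ℂ} (h : ‖x‖ ≤ rad k) : wt k x = 1 := min_eq_left (by linarith)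

theorem wt_big {x : ℂ} (h : rad k ≤ ‖x‖) : wt k x = rad k + 1 - ‖x‖ := min_eq_right (by linarith)

theorem wt_nonneg {x : ℂ} (h : ‖x‖ ≤ rad k + 1) : 0 ≤ wt k x := le_min zero_le_one (by linarith)

theorem wt_le (x : ℂ) : wt k x ≤ 1 := min_le_left _ _

theorem wt_anti {x y : ℂ} (h : ‖x‖ ≤ ‖y‖) : wt k y ≤ wt k x := min_le_min_left _ (by linarith)

theorem far_wt (a : Fin k) {x : ℂ} (h : rad k ≤ ‖x‖) (h' : ‖x‖ ≤ rad k + 1) :
    2 ≤ ‖x - wt k x * cen a‖ := by
  have h1 := norm_cen a
  have h2 := norm_sub_norm_le x (wt k x * cen a)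
  rw [norm_mul, Complex.norm_real, Real.norm_of_nonneg (wt_nonneg h')] at h2
  have h3 := mul_le_mul_of_nonneg_right (wt_le (k := k) x) (norm_nonneg (cen a : ℂ))
  linarith

/-- The holed disc used for the model. -/
abbrev HD (k : ℕ) (δ : ℝ) : Set ℂ := CapDisc (rad k + 1) δ fun a : Fin k => (cen a : ℂ)

theorem lift_mem (h0 : 0 < δ) (h1 : δ < 1) {x : ℂ} (hx : x ∈ HD k δ) :
    (x, wt k x) ∈ Om k (δ ^ 2) := by
  have hsq : δ ^ 2 < δ := by nlinarith
  rcases le_total ‖x‖ (rad k) with h | h
  · rw [wt_one h, mem_Om_one]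
    exact fun a => hsq.trans_le (hx.2 a)
  · refine ⟨fun h0 => ?_, fun a => ?_⟩
    · have : x = 0 := congrArg Prod.fst h0
      rw [this, norm_zero] at h
      linarith [rad_ge k]
    · have h2 := far_wt a h hx.1
      have h3 := wt_nonneg hx.1
      have h4 := wt_le (k := k) x
      simp only
      rw [abs_of_nonneg h3]
      nlinarith

theorem mem_HD_of_big (h1 : δ < 1) {x : ℂ} (h : rad k ≤ ‖x‖) (h' : ‖x‖ ≤ rad k + 1) :
    x ∈ HD k δ := ⟨h', fun a => by linarith [far_of_big a h]⟩

theorem model_surj (h0 : 0 < δ) (h1 : δ < 1) (m : Surf k (δ ^ 2)) :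
    ∃ x ∈ HD k δ, pr k (δ ^ 2) (x, wt k x) = m := by
  have hε : 0 < δ ^ 2 := pow_pos h0 2
  have hR := rad_ge k
  obtain ⟨p, hp, rfl⟩ := pr_surj m
  by_cases hz : p.2 = 0
  · have hu : 0 < ‖p.1‖ := norm_pos_iff.mpr fun h => hp.1 (Prod.ext h hz)
    have hn : ‖((rad k + 1) / ‖p.1‖ : ℝ) • p.1‖ = rad k + 1 := by
      rw [norm_smul, Real.norm_of_nonneg (by positivity)]; field_simp
    refine ⟨((rad k + 1) / ‖p.1‖ : ℝ) • p.1, mem_HD_of_big h1 (by linarith) hn.le, ?_⟩
    rw [← pr_smul hε hp (r := (rad k + 1) / ‖p.1‖) (by positivity)]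
    congr 1
    ext
    · rfl
    · rw [wt_big (by linarith), hn]; simp [hz]
  · set y : ℂ := p.1 / p.2 with hy
    have hyO : (y, (1 : ℝ)) ∈ Om k (δ ^ 2) := mem_Om_one.mpr ((mem_Om_iff hz).mp hp)
    have hpy : pr k (δ ^ 2) p = pr k (δ ^ 2) (y, 1) := by
      conv_lhs => rw [eq_smul_one hz]
      exact pr_smul hε hyO hz
    rw [hpy]
    rcases le_total ‖y‖ (rad k) with h | h
    · by_cases hh : ∀ a : Fin k, δ ≤ ‖y - cen a‖
      · exact ⟨y, ⟨by linarith, hh⟩, by rw [wt_one h]⟩
      · push Not at hh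
        obtain ⟨a, ha⟩ := hh
        have h2 := mem_Om_one.mp hyO a
        have h3 : 0 < ‖y - cen a‖ := hε.trans h2
        have hne : conj (y - cen a) ≠ 0 := (map_ne_zero _).mpr (norm_pos_iff.mp h3)
        set y' : ℂ := cen a + -((δ ^ 2 : ℝ) : ℂ) / conj (y - cen a) with hy'
        have hn : ‖y' - cen a‖ = δ ^ 2 / ‖y - cen a‖ := by
          rw [hy', add_sub_cancel_left, norm_div, norm_neg, Complex.norm_conj, Complex.norm_real,
            Real.norm_of_nonneg hε.le]
        have hn1 : ‖y' - cen a‖ < 1 := by rw [hn, div_lt_one h3]; exact h2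
        have hn2 : δ ≤ ‖y' - cen a‖ := by rw [hn, le_div_iff₀ h3]; nlinarith
        have hb : ‖y'‖ ≤ rad k := by
          have h4 := norm_cen a
          have h5 := norm_add_le (y' - cen a) (cen a)
          rw [sub_add_cancel] at h5
          linarith
        have hmem : y' ∈ HD k δ := by
          refine ⟨by linarith, fun b => ?_⟩
          by_cases hab : a = b
          · rw [← hab]; exact hn2
          · linarith [far_of_near hab hn1.le]
        refine ⟨y', hmem, ?_⟩
        have h6 := lift_mem h0 h1 hmem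
        rw [wt_one hb] at h6 ⊢
        refine ((pr_eq_iff hε hyO h6).mpr (Or.inr ⟨a, ?_⟩)).symm
        rw [glue_iff (by simp) (by simp)]
        simp only [Complex.ofReal_one, div_one]
        rw [hy', add_sub_cancel_left, mul_div_cancel₀ _ hne]
    · have hpos : 0 < 1 + ‖y‖ := by positivity
      have hn : ‖((rad k + 1) / (1 + ‖y‖) : ℝ) • y‖ = rad k + 1 - (rad k + 1) / (1 + ‖y‖) := by
        rw [norm_smul, Real.norm_of_nonneg (by positivity)]; field_simp; ring
      have hr1 : (rad k + 1) / (1 + ‖y‖) ≤ 1 := by rw [div_le_one hpos]; linarith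
      have hr0 : 0 < (rad k + 1) / (1 + ‖y‖) := by positivity
      refine ⟨((rad k + 1) / (1 + ‖y‖) : ℝ) • y, mem_HD_of_big h1 (by linarith) (by linarith), ?_⟩
      rw [← pr_smul hε hyO hr0.ne']
      congr 1
      ext
      · rfl
      · rw [wt_big (by linarith), hn]; simp

theorem model_rel (h0 : 0 < δ) (h1 : δ < 1) {x y : ℂ} (hx : x ∈ HD k δ) (hy : y ∈ HD k δ) :
    Rel k (δ ^ 2) (x, wt k x) (y, wt k y) ↔
      (x = y ∨ (‖x‖ = rad k + 1 ∧ y = -x) ∨ ∃ i : Fin k, ‖x - cen i‖ = δ ∧
        y - cen i = -(x - cen i)) := by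
  have hε : 0 < δ ^ 2 := pow_pos h0 2
  have hR := rad_ge k
  have hxO := lift_mem h0 h1 hx
  have hyO := lift_mem h0 h1 hy
  have hsmall : ∀ {x y : ℂ} {a : Fin k}, x ∈ HD k δ → y ∈ HD k δ →
      Glue (δ ^ 2) a (x, wt k x) (y, wt k y) → ‖x‖ ≤ rad k := by
    intro x y a hx hy hg
    by_contra hcon
    push Not at hcon
    have e1 := far_wt a hcon.le hx.1
    have e2 := (lift_mem h0 h1 hy).2 a
    have e3 := hg.norm hε
    simp only at e2 e3
    rw [abs_of_nonneg (wt_nonneg hx.1)] at e3
    have e4 := wt_le (k := k) x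
    have e5 : 0 ≤ δ ^ 2 * |wt k y| := by positivity
    nlinarith
  constructor
  · rintro (⟨r, hr⟩ | ⟨a, ha⟩)
    · have e1 : y = r • x := congrArg Prod.fst hr
      have e2 : wt k y = r * wt k x := congrArg Prod.snd hr
      have e3 : ‖y‖ = |r| * ‖x‖ := by rw [e1, norm_smul, Real.norm_eq_abs]
      rcases (wt_nonneg hx.1).eq_or_lt with hw | hw
      · have hw' : wt k y = 0 := by rw [e2, ← hw, mul_zero]
        have key : ∀ {x : ℂ}, wt k x = 0 → ‖x‖ = rad k + 1 := by
          intro x h
          rcases le_total ‖x‖ (rad k) with h' | h'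
          · rw [wt_one h'] at h; norm_num at h
          · rw [wt_big h'] at h; linarith
        have n1 := key hw.symm
        have n2 := key hw'
        rw [n1, n2] at e3
        have e4 : |r| = 1 := by
          have : (|r| - 1) * (rad k + 1) = 0 := by linarith
          have := (mul_eq_zero.mp this).resolve_right (by linarith)
          linarith
        rcases abs_eq (zero_le_one) |>.mp e4 with h | h
        · left; rw [e1, h, one_smul]
        · right; left; exact ⟨n1, by rw [e1, h, neg_one_smul]⟩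
      · have hr0 : 0 ≤ r := by
          by_contra hcon
          push Not at hcon
          nlinarith [wt_nonneg hy.1, mul_pos (neg_pos.mpr hcon) hw]
        rw [abs_of_nonneg hr0] at e3
        have hr1 : r = 1 := by
          rcases lt_trichotomy r 1 with h | h | h
          · have : ‖y‖ ≤ ‖x‖ := by nlinarith [norm_nonneg x]
            have := wt_anti (k := k) this
            nlinarith
          · exact h
          · have : ‖x‖ ≤ ‖y‖ := by nlinarith [norm_nonneg x]
            have := wt_anti (k := k) this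
            nlinarith
        left; rw [e1, hr1, one_smul]
    · have b1 := hsmall hx hy ha
      have b2 := hsmall hy hx ha.symm
      rw [wt_one b1, wt_one b2, glue_iff (by simp) (by simp)] at ha
      simp only [Complex.ofReal_one, div_one] at ha
      have n1 := hx.2 a
      have n2 := hy.2 a
      have n3 := norm_glue hε ha
      have n4 : ‖x - cen a‖ = δ := by
        simp only at n1 n2
        nlinarith
      refine Or.inr (Or.inr ⟨a, n4, ?_⟩)
      have hne : conj (x - cen a) ≠ 0 :=
        (map_ne_zero _).mpr (norm_pos_iff.mp (by rw [n4]; exact h0))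
      apply mul_left_cancel₀ hne
      rw [ha, mul_neg, mul_comm, Complex.mul_conj, Complex.normSq_eq_norm_sq, n4]
  · rintro (rfl | ⟨h2, h3⟩ | ⟨i, h2, h3⟩)
    · exact Or.inl ⟨1, by simp⟩
    · have h4 : wt k x = 0 := by rw [wt_big (by linarith), h2, sub_self]
      have h5 : wt k y = 0 := by
        rw [wt_big (by rw [h3, norm_neg]; linarith), h3, norm_neg, h2, sub_self]
      exact Or.inl ⟨-1, by rw [h4, h5, h3]; simp⟩
    · have key : ∀ {x : ℂ} {a : Fin k}, ‖x - cen a‖ = δ → ‖x‖ ≤ rad k := by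
        intro x a h
        have h4 := norm_cen a
        have h5 := norm_add_le (x - cen a) (cen a)
        rw [sub_add_cancel] at h5
        linarith
      have h4 : ‖y - cen i‖ = δ := by rw [h3, norm_neg, h2]
      refine Or.inr ⟨i, ?_⟩
      rw [wt_one (key h2), wt_one (key h4), glue_iff (by simp) (by simp)]
      simp only [Complex.ofReal_one, div_one]
      rw [h3, mul_neg, mul_comm, Complex.mul_conj, Complex.normSq_eq_norm_sq, h2]

theorem model (h0 : 0 < δ) (h1 : δ < 1) :
    CompactSpace (Surf k (δ ^ 2)) ∧ IsSumOfProjectivePlanes (k + 1) (Surf k (δ ^ 2)) := by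
  have hε : 0 < δ ^ 2 := pow_pos h0 2
  have hR := rad_ge k
  have := t2Space_surf (k := k) hε
  let q : HD k δ → Surf k (δ ^ 2) := fun x => pr k (δ ^ 2) (x, wt k x)
  have hq : Continuous q := by
    refine continuousOn_pr.comp_continuous ?_ fun x => lift_mem h0 h1 x.2
    unfold wt
    fun_prop
  have hs : Function.Surjective q := fun m => by
    obtain ⟨x, hx, h⟩ := model_surj h0 h1 m
    exact ⟨⟨x, hx⟩, h⟩
  have hc : IsCompact (HD k δ) := by
    have : HD k δ = Metric.closedBall 0 (rad k + 1) ∩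
        ⋂ a : Fin k, {x : ℂ | δ ≤ ‖x - cen a‖} := by
      ext x; simp [CapDisc]
    rw [this]
    exact (isCompact_closedBall _ _).inter_right
      (isClosed_iInter fun a => isClosed_le continuous_const (by fun_prop))
  have : CompactSpace (HD k δ) := isCompact_iff_compactSpace.mp hc
  refine ⟨hs.compactSpace hq, k, rad k + 1, δ, fun a => cen a, rfl, by linarith, h0,
    fun a => by linarith [norm_cen a], fun a b hab => by linarith [cen_sep_norm hab], q,
    hq.isClosedMap.isQuotientMap hq hs, fun x y => ?_⟩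
  rw [pr_eq_iff hε (lift_mem h0 h1 x.2) (lift_mem h0 h1 y.2), model_rel h0 h1 x.2 y.2,
    Subtype.ext_iff]

end Pool.Agent.Lib.MP_a9c398_gt.CC
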