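import Pool.Agent.Lib.MP_a9c398_gt.Main
import Pool.Agent.Lib.MP_a9c398_gt.CC.Model

/-! The embedding, its two-piece property, and the atlas. -/

open Set Filter Topology
open scoped ContDiff Manifold ComplexConjugate

namespace Pool.Agent.Lib.MP_a9c398_gt.CC

variable {k : ℕ} {t δ ε : ℝ}

/-- The part of the cone where the Veronese map is not modified. -/
def Out (k : ℕ) : Set (ℂ × ℝ) := {p | rad k * |p.2| < ‖p.1‖}

theorem isOpen_Out (k : ℕ) : IsOpen (Out k) := isOpen_lt (by fun_prop) (by fun_prop)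

theorem norm_div_big {p : ℂ × ℝ} (hz : p.2 ≠ 0) : p ∈ Out k ↔ rad k < ‖p.1 / p.2‖ := by
  rw [norm_div, Complex.norm_real, Real.norm_eq_abs, lt_div_iff₀ (abs_pos.mpr hz)]
  rfl

theorem mem_Out_of_zero {p : ℂ × ℝ} (hp : p ≠ 0) (hz : p.2 = 0) : p ∈ Out k := by
  have hu : 0 < ‖p.1‖ := norm_pos_iff.mpr fun h => hp (Prod.ext h hz)
  simpa [Out, hz] using hu

theorem Out_subset (hε : ε < 1) : Out k ⊆ Om k ε := by
  intro p hp
  have h0 : p ≠ 0 := by
    rintro rfl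
    simp [Out] at hp
  by_cases hz : p.2 = 0
  · refine ⟨h0, fun a => ?_⟩
    simpa [Out, hz] using hp
  · rw [mem_Om_iff hz]
    intro a
    linarith [far_of_big a ((norm_div_big hz).mp hp).le]

theorem not_glue_Out (hε : 0 < ε) (hε1 : ε < 1) {p p' : ℂ × ℝ} (hp : p ∈ Out k)
    (hp' : p' ∈ Om k ε) (a : Fin k) : ¬ Glue ε a p p' := by
  intro h
  have h1 := h.lt_one hε (Out_subset hε1 hp) hp'
  have hz := h.ne hε (Out_subset hε1 hp) hp'
  linarith [far_of_big a ((norm_div_big hz).mp hp).le]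

open Classical in
/-- The map on the cone. -/
noncomputable def tot (k : ℕ) (t ε : ℝ) (p : ℂ × ℝ) : ℂ × ℂ :=
  if p.2 = 0 then ver t p else aff k t ε (p.1 / p.2)

theorem tot_one (y : ℂ) : tot k t ε (y, 1) = aff k t ε y := by simp [tot]

theorem tot_Out {p : ℂ × ℝ} (hp : p ∈ Out k) : tot k t ε p = ver t p := by
  unfold tot
  split_ifs with hz
  · rfl
  · rw [aff_out _ _ ((norm_div_big hz).mp hp).le]
    conv_rhs => rw [eq_smul_one hz, ver_smul t hz]

theorem tot_rel (hε : 0 < ε) {p p' : ℂ × ℝ} (hp : p ∈ Om k ε)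
    (hp' : p' ∈ Om k ε) (h : Rel k ε p p') : tot k t ε p = tot k t ε p' := by
  rcases h with ⟨r, h⟩ | ⟨a, h⟩
  · have hr := (smul_symm hp'.1 h).1
    subst h
    unfold tot
    by_cases hz : p.2 = 0
    · rw [if_pos hz, if_pos (by simp [hz]), ver_smul t hr]
    · rw [if_neg hz, if_neg (by simp [hz, hr]), div_smul hr]
  · have hz := h.ne hε hp hp'
    have hz' := h.symm.ne hε hp' hp
    unfold tot
    rw [if_neg hz, if_neg hz', aff_cap _ _ (h.lt_one hε hp hp').le,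
      aff_cap _ _ (h.symm.lt_one hε hp' hp).le]
    exact (cap_symm hε ((glue_iff hz hz').mp h)).symm

theorem contDiffAt_tot (ht : 0 < t) (hε : 0 < ε) {p : ℂ × ℝ} (hp : p ∈ Om k ε) :
    ContDiffAt ℝ ∞ (tot k t ε) p := by
  by_cases hz : p.2 = 0
  · have h1 : ContDiffAt ℝ ∞ (fun p => ver t p) p :=
      contDiffAt_ver contDiffAt_const contDiffAt_id (den_pos ht hp.1).ne'
    refine h1.congr_of_eventuallyEq ?_
    filter_upwards [(isOpen_Out k).mem_nhds (mem_Out_of_zero hp.1 hz)] with w hw using tot_Out hw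
  · have h1 : ContDiffAt ℝ ∞ (fun p : ℂ × ℝ => aff k t ε (p.1 / p.2)) p :=
      contDiffAt_aff contDiffAt_const contDiffAt_const (contDiffAt_div hz) ht.le
        fun a => norm_pos_iff.mp (hε.trans ((mem_Om_iff hz).mp hp a))
    refine h1.congr_of_eventuallyEq ?_
    filter_upwards [continuous_snd.continuousAt.eventually_ne hz] with w hw using if_neg hw

theorem Good.ε_pos (G : Good k t δ) : 0 < δ ^ 2 := pow_pos G.δ_pos 2

theorem Good.ε_lt (G : Good k t δ) : δ ^ 2 < 1 := by nlinarith [G.δ_pos, G.δ_lt]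

/-- The map on the surface. -/
noncomputable def Good.map (G : Good k t δ) : Surf k (δ ^ 2) → ℂ × ℂ :=
  Quot.lift (fun p : Om k (δ ^ 2) => tot k t (δ ^ 2) p)
    fun p p' h => tot_rel G.ε_pos p.2 p'.2 h

theorem Good.map_pr (G : Good k t δ) {p : ℂ × ℝ} (hp : p ∈ Om k (δ ^ 2)) :
    G.map (pr k (δ ^ 2) p) = tot k t (δ ^ 2) p := by
  rw [pr_of_mem hp]; rfl

theorem Good.continuous_map (G : Good k t δ) : Continuous G.map := by
  refine continuous_quot_lift _ ?_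
  exact continuous_iff_continuousAt.mpr fun p =>
    (contDiffAt_tot G.t_pos G.ε_pos p.2).continuousAt.comp continuous_subtype_val.continuousAt

theorem Good.localMax (G : Good k t δ) {a b : ℂ} (hab : a ≠ 0 ∨ b ≠ 0) {p : ℂ × ℝ}
    (hp : p ∈ Om k (δ ^ 2)) (hm : IsLocalMax (fun x => lf a b (G.map x)) (pr k (δ ^ 2) p)) :
    p ∈ Out k ∧ IsLocalMax (fun p' => lf a b (ver t p')) p := by
  have h1 : IsLocalMax (fun p' => lf a b (tot k t (δ ^ 2) p')) p := by
    refine (hm.comp_continuous (continuousAt_pr hp)).congr ?_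
    filter_upwards [(isOpen_Om k _).mem_nhds hp] with w hw
    simp only [Function.comp, G.map_pr hw]
  have h2 : p ∈ Out k := by
    by_contra hcon
    have hz : p.2 ≠ 0 := fun hz => hcon (mem_Out_of_zero hp.1 hz)
    rw [norm_div_big hz, not_lt] at hcon
    refine G.aff_noMax _ hcon ((mem_Om_iff hz).mp hp) a b hab ?_
    rw [eq_smul_one hz] at h1
    refine (IsLocalMax.comp_continuous (g := fun y : ℂ => p.2 • (y, (1 : ℝ))) h1
      (by fun_prop)).congr (Eventually.of_forall fun y => ?_)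
    simp only [Function.comp, tot]
    rw [if_neg (by simp [hz]), div_smul hz]
    simp
  refine ⟨h2, h1.congr ?_⟩
  filter_upwards [(isOpen_Out k).mem_nhds h2] with w hw
  rw [tot_Out hw]

theorem Good.tpp (G : Good k t δ) {a b : ℂ} (hab : a ≠ 0 ∨ b ≠ 0) (c : ℝ) :
    IsPreconnected {x | c < lf a b (G.map x)} := by
  have := (model (k := k) G.δ_pos G.δ_lt).1
  refine isPreconnected_superlevel ((continuous_lf a b).comp G.continuous_map) ?_ c
  intro x₁ x₂ hm₁ hm₂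
  obtain ⟨p₁, hp₁, rfl⟩ := pr_surj x₁
  obtain ⟨p₂, hp₂, rfl⟩ := pr_surj x₂
  obtain ⟨o₁, m₁⟩ := G.localMax hab hp₁ hm₁
  obtain ⟨o₂, m₂⟩ := G.localMax hab hp₂ hm₂
  by_cases h0 : (0 : ℂ × ℝ) ∈ segment ℝ p₁ p₂
  · obtain ⟨α, β, hα, hβ, hs, h⟩ := h0
    have hβ0 : β ≠ 0 := by
      rintro rfl
      have : α = 1 := by linarith
      exact hp₁.1 (by simpa [this] using h)
    have he : p₂ = (-(β⁻¹ * α)) • p₁ := by
      have h1 : β • p₂ = -(α • p₁) := eq_neg_of_add_eq_zero_right h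
      rw [neg_smul, mul_smul, ← smul_neg, ← h1, smul_smul, inv_mul_cancel₀ hβ0, one_smul]
    have := (pr_eq_iff G.ε_pos hp₁ hp₂).mpr (Or.inl ⟨_, he⟩)
    exact ⟨{pr k (δ ^ 2) p₁}, isPreconnected_singleton, rfl, this.symm, by simp⟩
  · have key : ∀ v ∈ segment ℝ p₁ p₂, v ∈ Out k ∧ lf a b (ver t p₁) ≤ lf a b (ver t v) := by
      intro v hv
      have hv0 : v ≠ 0 := fun h => h0 (h ▸ hv)
      obtain ⟨α, β, -, -, -, rfl⟩ := hv
      have hr := fun w hw => rayleigh G.t_pos hp₁.1 hp₂.1 m₁ m₂ α β hv0 (w := w) hw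
      refine ⟨?_, hr p₁ hp₁.1⟩
      set v := α • p₁ + β • p₂
      by_contra hcon
      have hz : v.2 ≠ 0 := fun hz => hcon (mem_Out_of_zero hv0 hz)
      rw [norm_div_big hz, not_lt] at hcon
      refine G.ver_noMax _ hcon a b hab (Eventually.of_forall fun y => ?_)
      have h1 := hr (y, 1) (by simp)
      rwa [eq_smul_one hz, ver_smul t hz] at h1
    have hsub : segment ℝ p₁ p₂ ⊆ Om k (δ ^ 2) := fun v hv => Out_subset G.ε_lt (key v hv).1
    refine ⟨pr k (δ ^ 2) '' segment ℝ p₁ p₂,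
      (convex_segment p₁ p₂).isPreconnected.image _ (continuousOn_pr.mono hsub),
      mem_image_of_mem _ (left_mem_segment ℝ p₁ p₂), mem_image_of_mem _ (right_mem_segment ℝ p₁ p₂),
      ?_⟩
    rintro _ ⟨v, hv, rfl⟩
    simp only [Function.comp]
    rw [G.map_pr hp₁, G.map_pr (hsub hv), tot_Out o₁, tot_Out (key v hv).1]
    exact (key v hv).2

theorem Good.substantial (G : Good k t δ) {a b : ℂ} (hab : a ≠ 0 ∨ b ≠ 0) (c : ℝ) :
    ∃ x, lf a b (G.map x) ≠ c := by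
  by_contra hcon
  push Not at hcon
  have hn : ‖(rad k : ℂ)‖ = rad k := by
    rw [Complex.norm_real, Real.norm_of_nonneg (by linarith [rad_ge k])]
  have hp : ((rad k : ℂ), (1 : ℝ)) ∈ Om k (δ ^ 2) :=
    mem_Om_one.mpr fun a => by linarith [far_of_big a hn.ge, G.ε_lt]
  have h := (G.localMax hab hp (Eventually.of_forall fun x => by simp [hcon])).1
  rw [norm_div_big (by simp)] at h
  simp only [Complex.ofReal_one, div_one, hn, lt_self_iff_false] at h

theorem Good.rep (G : Good k t δ) (m : Surf k (δ ^ 2)) :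
    (∃ p ∈ Out k, (rad k + 1) * |p.2| ≤ ‖p.1‖ ∧ pr k (δ ^ 2) p = m) ∨
      ∃ y : ℂ, ‖y‖ ≤ rad k + 1 ∧ (∀ a : Fin k, δ ≤ ‖y - cen a‖) ∧ pr k (δ ^ 2) (y, 1) = m := by
  obtain ⟨x, hx, rfl⟩ := model_surj G.δ_pos G.δ_lt m
  rcases le_or_gt ‖x‖ (rad k) with h | h
  · exact Or.inr ⟨x, hx.1, hx.2, by rw [wt_one h]⟩
  · have hO : (x, wt k x) ∈ Out k := by
      change rad k * |wt k x| < ‖x‖
      rw [abs_of_nonneg (wt_nonneg hx.1)]
      nlinarith [wt_le (k := k) x, rad_ge k]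
    generalize (x, wt k x) = p at hO
    by_cases hb : (rad k + 1) * |p.2| ≤ ‖p.1‖
    · exact Or.inl ⟨p, hO, hb, rfl⟩
    · have hz : p.2 ≠ 0 := fun hz => hb (by simp [hz])
      have h1 := (norm_div_big hz).mp hO
      have h2 : ‖p.1 / p.2‖ ≤ rad k + 1 := by
        rw [norm_div, Complex.norm_real, Real.norm_eq_abs, div_le_iff₀ (abs_pos.mpr hz)]
        exact (not_le.mp hb).le
      have h3 : ∀ a : Fin k, δ ≤ ‖p.1 / p.2 - cen a‖ := fun a => by
        linarith [far_of_big a h1.le, G.δ_lt]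
      refine Or.inr ⟨p.1 / p.2, h2, h3, ?_⟩
      conv_rhs => rw [eq_smul_one hz]
      exact (pr_smul G.ε_pos (mem_Om_one.mpr ((mem_Om_iff hz).mp (Out_subset G.ε_lt hO))) hz).symm

theorem Good.mem_Om (G : Good k t δ) {y : ℂ} (h : ∀ a : Fin k, δ ≤ ‖y - cen a‖) :
    (y, (1 : ℝ)) ∈ Om k (δ ^ 2) :=
  mem_Om_one.mpr fun a => lt_of_lt_of_le (by nlinarith [G.δ_pos, G.δ_lt]) (h a)

theorem Good.inj_Out (G : Good k t δ) {p p' : ℂ × ℝ} (hp : p ∈ Out k) (hp' : p' ∈ Out k)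
    (h : G.map (pr k (δ ^ 2) p) = G.map (pr k (δ ^ 2) p')) :
    pr k (δ ^ 2) p = pr k (δ ^ 2) p' := by
  have o1 := Out_subset G.ε_lt hp
  have o2 := Out_subset G.ε_lt hp'
  rw [G.map_pr o1, G.map_pr o2, tot_Out hp, tot_Out hp'] at h
  exact (pr_eq_iff G.ε_pos o1 o2).mpr (Or.inl (ver_inj G.t_pos o1.1 o2.1 h))

theorem Good.inj_mixed (G : Good k t δ) {p : ℂ × ℝ} (hp : p ∈ Out k)
    (hb : (rad k + 1) * |p.2| ≤ ‖p.1‖) {y : ℂ} (h2 : ∀ a : Fin k, δ ≤ ‖y - cen a‖)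
    (h : G.map (pr k (δ ^ 2) p) = G.map (pr k (δ ^ 2) (y, 1))) :
    pr k (δ ^ 2) p = pr k (δ ^ 2) (y, 1) := by
  rcases le_or_gt ‖y‖ (rad k) with h1 | h1
  · exfalso
    have o1 := Out_subset G.ε_lt hp
    rw [G.map_pr o1, G.map_pr (G.mem_Om h2), tot_Out hp, tot_one] at h
    have e1 := G.snd_gt o1.1 hb
    have e2 := G.snd_le h1 h2
    rw [h] at e1
    linarith
  · exact G.inj_Out hp (by simpa [Out] using h1) h

theorem Good.injective (G : Good k t δ) : Function.Injective G.map := by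
  intro m m' h
  rcases G.rep m with ⟨p, hp, hb, rfl⟩ | ⟨y, h1, h2, rfl⟩ <;>
    rcases G.rep m' with ⟨p', hp', hb', rfl⟩ | ⟨y', h1', h2', rfl⟩
  · exact G.inj_Out hp hp' h
  · exact G.inj_mixed hp hb h2' h
  · exact (G.inj_mixed hp' hb' h2 h.symm).symm
  · rw [G.map_pr (G.mem_Om h2), G.map_pr (G.mem_Om h2'), tot_one, tot_one] at h
    rcases G.aff_eq h1 h2 h1' h2' h with h3 | ⟨a, h3⟩
    · rw [h3]
    · refine (pr_eq_iff G.ε_pos (G.mem_Om h2) (G.mem_Om h2')).mpr (Or.inr ⟨a, ?_⟩)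
      rw [glue_iff (by simp) (by simp)]
      simpa only [Complex.ofReal_one, div_one] using h3

section charts

variable {T : (ℂ × ℝ) →L[ℝ] (ℂ × ℝ)}

theorem chart_open (hε : 0 < ε) (hT : ∀ p, T (T p) = p) {V : Set ℂ}
    (hV : ∀ y ∈ V, T (y, 1) ∈ Om k ε) (ho : IsOpen V) :
    IsOpen ((fun y => pr k ε (T (y, 1))) '' V) := by
  let C : Set (ℂ × ℝ) := {p | (T p).2 ≠ 0 ∧ (T p).1 / (T p).2 ∈ V}
  have hC : ∀ p ∈ C, p = (T p).2 • T ((T p).1 / (T p).2, 1) := by
    intro p hp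
    rw [← map_smul, ← eq_smul_one hp.1, hT]
  have hCo : IsOpen C := by
    rw [isOpen_iff_mem_nhds]
    intro p hp
    have h1 : ContinuousAt (fun p => (T p).1 / ((T p).2 : ℂ)) p :=
      (contDiffAt_div (n := 0) hp.1).continuousAt.comp T.continuous.continuousAt
    have h2 : ContinuousAt (fun p => (T p).2) p := by fun_prop
    filter_upwards [h1.eventually_mem (ho.mem_nhds hp.2), h2.eventually_ne hp.1] with w e1 e2
    exact ⟨e2, e1⟩
  have hsub : C ⊆ Om k ε := fun p hp => by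
    rw [hC p hp]; exact smul_mem_Om hp.1 (hV _ hp.2)
  suffices H : (fun y => pr k ε (T (y, 1))) '' V = pr k ε '' C by
    rw [H]; exact isOpen_image_pr hε hsub hCo
  ext x
  constructor
  · rintro ⟨y, hy, rfl⟩
    exact ⟨T (y, 1), by simpa [C, hT] using hy, rfl⟩
  · rintro ⟨p, hp, rfl⟩
    refine ⟨_, hp.2, ?_⟩
    conv_rhs => rw [hC p hp]
    exact (pr_smul hε (hV _ hp.2) hp.1).symm

theorem chart_comp (hε : 0 < ε) {T' : (ℂ × ℝ) →L[ℝ] (ℂ × ℝ)} (hT' : ∀ p, T' (T' p) = p)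
    {x y : ℂ} (hx : T (x, 1) ∈ Om k ε) (hy : T' (y, 1) ∈ Om k ε)
    (h : pr k ε (T (x, 1)) = pr k ε (T' (y, 1))) :
    ∃ g : ℂ → ℂ, ContDiffAt ℝ ∞ g x ∧ g x = y ∧
      ∀ᶠ x' in 𝓝 x, pr k ε (T' (g x', 1)) = pr k ε (T (x', 1)) := by
  obtain ⟨g, h1, h2, h3⟩ := rel_local hε hy hx ((pr_eq_iff hε hy hx).mp h.symm)
  have hi : ContDiff ℝ ∞ (fun x : ℂ => T (x, 1)) := T.contDiff.comp (by fun_prop)
  have h4 : ContDiffAt ℝ ∞ (fun x : ℂ => T' (g (T (x, 1)))) x :=
    T'.contDiff.contDiffAt.comp x (h1.comp x hi.contDiffAt)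
  have h5 : T' (g (T (x, 1))) = (y, 1) := by rw [h2, hT']
  have h6 : (T' (g (T (x, 1)))).2 ≠ 0 := by simp [h5]
  refine ⟨fun x => (T' (g (T (x, 1)))).1 / (T' (g (T (x, 1)))).2,
    ContDiffAt.comp (g := fun p : ℂ × ℝ => p.1 / (p.2 : ℂ)) x (contDiffAt_div h6) h4,
    by simp [h5], ?_⟩
  filter_upwards [hi.continuous.continuousAt.eventually h3,
    h4.snd.continuousAt.eventually_ne h6] with x' e1 e2
  rw [← e1.2]
  rw [chart_normal hT' e2]
  exact pr_smul hε e1.1 (inv_ne_zero e2)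

theorem chart_imm_Out (ht : 0 < t) (hT : ∀ p, T (T p) = p) {y : ℂ} (hy : T (y, 1) ∈ Out k) :
    Imm (fun y => tot k t ε (T (y, 1))) y := by
  have hi : Continuous (fun x : ℂ => T (x, 1)) := by fun_prop
  have h0 : T (y, 1) ≠ 0 := (Out_subset (ε := 0) one_pos hy).1
  refine Imm.congr (g := fun y => ver t (T (y, 1))) (fun e he => ?_) ?_
  · have h1 : (fun τ : ℝ => ver t (T (y + τ • e, 1))) =
        fun τ : ℝ => ver t (T (y, 1) + τ • T (e, 0)) := by
      ext1 τ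
      rw [← map_smul, ← map_add]
      simp
    rw [h1] at he
    obtain ⟨μ, hμ⟩ := ver_kernel ht h0 he
    have h2 := congrArg T hμ
    rw [map_smul, hT, hT] at h2
    have h3 : μ = 0 := by simpa using (congrArg Prod.snd h2).symm
    simpa [h3] using congrArg Prod.fst h2
  · filter_upwards [hi.continuousAt.eventually_mem ((isOpen_Out k).mem_nhds hy)] with w hw
    exact (tot_Out hw).symm

end charts

/-- The domains of the charts. -/
def dom (k : ℕ) (ε : ℝ) : Bool ⊕ ℂ → Set ℂ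
  | Sum.inl b => {y | sw (Sum.inl b) (y, 1) ∈ Out k}
  | Sum.inr y₀ => Metric.ball y₀ ε ∩ {y | (y, (1 : ℝ)) ∈ Om k ε}

theorem dom_mem (hε : ε < 1) {i : Bool ⊕ ℂ} {y : ℂ} (hy : y ∈ dom k ε i) :
    sw i (y, 1) ∈ Om k ε := by
  rcases i with b | y₀
  · exact Out_subset hε hy
  · exact hy.2

theorem isOpen_dom (i : Bool ⊕ ℂ) : IsOpen (dom k ε i) := by
  rcases i with b | y₀
  · exact (isOpen_Out k).preimage (f := fun y : ℂ => sw (Sum.inl b) (y, 1)) (by fun_prop)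
  · exact Metric.isOpen_ball.inter
      ((isOpen_Om k ε).preimage (f := fun y : ℂ => (y, (1 : ℝ))) (by fun_prop))

theorem dom_inj (hε : 0 < ε) (hε1 : ε < 1) (i : Bool ⊕ ℂ) :
    InjOn (fun y => pr k ε (sw i (y, 1))) (dom k ε i) := by
  intro x hx y hy h
  rcases (pr_eq_iff hε (dom_mem hε1 hx) (dom_mem hε1 hy)).mp h with ⟨r, hr⟩ | ⟨a, ha⟩
  · exact chart_scale (sw_sw i) hr
  · exfalso
    rcases i with b | y₀
    · exact not_glue_Out hε hε1 hx (dom_mem hε1 hy) a ha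
    · have h1 : conj (x - cen a) * (y - cen a) = -ε := by
        have := (glue_iff (p := (x, 1)) (p' := (y, 1)) (by simp) (by simp)).mp ha
        simpa only [Complex.ofReal_one, div_one] using this
      have h2 := mem_Om_one.mp hx.2 a
      have h3 := norm_glue hε h1
      have h4 : ‖x - y‖ < 2 * ε := by
        have e1 := mem_ball_iff_norm.mp hx.1
        have e2 := mem_ball_iff_norm.mp hy.1
        have e3 := norm_sub_le (x - y₀) (y - y₀)
        rw [sub_sub_sub_cancel_right] at e3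
        linarith
      have h5 : conj (x - cen a) * (x - y) = ((‖x - cen a‖ ^ 2 + ε : ℝ) : ℂ) := by
        rw [Complex.ofReal_add, ← Complex.normSq_eq_norm_sq, ← Complex.mul_conj]
        linear_combination -h1
      have h6 := congrArg norm h5
      rw [norm_mul, Complex.norm_conj, Complex.norm_real,
        Real.norm_of_nonneg (by positivity)] at h6
      nlinarith [mul_lt_mul_of_pos_left h4 (hε.trans h2), sq_nonneg (‖x - cen a‖ - ε)]

theorem dom_cover (hε : 0 < ε) (x : Surf k ε) : ∃ i, ∃ y ∈ dom k ε i, pr k ε (sw i (y, 1)) = x := by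
  obtain ⟨p, hp, rfl⟩ := pr_surj x
  have key : ∀ i, (sw i p).2 ≠ 0 → sw i ((sw i p).1 / (sw i p).2, 1) = (sw i p).2⁻¹ • p :=
    fun i hi => chart_normal (sw_sw i) hi
  by_cases hz : p.2 = 0
  · have h1 : ∃ b, (sw (Sum.inl b) p).2 ≠ 0 := by
      by_contra hcon
      push Not at hcon
      exact hp.1 (Prod.ext (Complex.ext (hcon false) (hcon true)) hz)
    obtain ⟨b, hb⟩ := h1
    refine ⟨Sum.inl b, _, ?_, by rw [key _ hb, pr_smul hε hp (inv_ne_zero hb)]⟩
    change sw (Sum.inl b) _ ∈ Out k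
    rw [key _ hb]
    exact mem_Out_of_zero (smul_ne_zero (inv_ne_zero hb) hp.1) (by simp [hz])
  · have h1 := key (Sum.inr (p.1 / p.2)) hz
    refine ⟨Sum.inr (p.1 / p.2), p.1 / p.2,
      ⟨Metric.mem_ball_self hε, mem_Om_one.mpr ((mem_Om_iff hz).mp hp)⟩, ?_⟩
    exact (congrArg (pr k ε) h1).trans (pr_smul hε hp (inv_ne_zero hz))

theorem Good.chart_imm (G : Good k t δ) {i : Bool ⊕ ℂ} {y : ℂ} (hy : y ∈ dom k (δ ^ 2) i) :
    Imm (fun y => tot k t (δ ^ 2) (sw i (y, 1))) y := by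
  by_cases h : sw i (y, 1) ∈ Out k
  · exact chart_imm_Out G.t_pos (sw_sw i) h
  · rcases i with b | y₀
    · exact absurd hy h
    · change (y, (1 : ℝ)) ∉ Out k at h
      rw [norm_div_big (by simp), not_lt] at h
      simp only [Complex.ofReal_one, div_one] at h
      exact (G.aff_imm y h (mem_Om_one.mp hy.2)).congr
        (Eventually.of_forall fun y => (tot_one y).symm)

theorem main (g : ℕ) (hg : 3 ≤ g) : ∃ (M : Type) (_ : TopologicalSpace M) (_ : T2Space M)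
    (_ : CompactSpace M) (_ : ConnectedSpace M) (_ : ChartedSpace (EuclideanSpace ℝ (Fin 2)) M)
    (_ : IsManifold (𝓡 2) ∞ M), IsSumOfProjectivePlanes g M ∧
      ∃ f : M → EuclideanSpace ℝ (Fin 4), ContMDiff (𝓡 2) (𝓡 4) ∞ f ∧
        (∀ x, Function.Injective (mfderiv (𝓡 2) (𝓡 4) f x)) ∧ Function.Injective f ∧
        (∀ (ξ : EuclideanSpace ℝ (Fin 4)) (c : ℝ), ξ ≠ 0 →
          IsPreconnected {x | c < inner ℝ ξ (f x)}) ∧
        (∀ (ξ : EuclideanSpace ℝ (Fin 4)) (c : ℝ), ξ ≠ 0 → ∃ x, inner ℝ ξ (f x) ≠ c) := by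
  obtain ⟨k, rfl⟩ : ∃ k, g = k + 1 := ⟨g - 1, by omega⟩
  obtain ⟨t, δ, G⟩ := exists_good k
  have hε := G.ε_pos
  have hε1 := G.ε_lt
  obtain ⟨hcomp, hmodel⟩ := model (k := k) G.δ_pos G.δ_lt
  let L2 : EuclideanSpace ℝ (Fin 2) ≃L[ℝ] ℂ := ContinuousLinearEquiv.ofFinrankEq (by simp)
  let L4 : (ℂ × ℂ) ≃L[ℝ] EuclideanSpace ℝ (Fin 4) := ContinuousLinearEquiv.ofFinrankEq (by simp)
  have hconn : ConnectedSpace (Surf k (δ ^ 2)) := by
    have hne : Nonempty (Surf k (δ ^ 2)) := ⟨pr k _ 0⟩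
    have hc : Continuous fun x => lf 1 0 (G.map x) := (continuous_lf 1 0).comp G.continuous_map
    obtain ⟨x₀, -, hx₀⟩ := isCompact_univ.exists_isMinOn univ_nonempty hc.continuousOn
    have h1 := G.tpp (a := 1) (b := 0) (Or.inl one_ne_zero) (lf 1 0 (G.map x₀) - 1)
    have h2 : {x | lf 1 0 (G.map x₀) - 1 < lf 1 0 (G.map x)} = univ :=
      eq_univ_of_forall fun x => by
        have : lf 1 0 (G.map x₀) ≤ lf 1 0 (G.map x) := hx₀ (mem_univ x)
        simp only [mem_ofPred_eq]; linarith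
    rw [h2] at h1
    exact { isPreconnected_univ := h1, toNonempty := hne }
  have hcont : ∀ i, ∀ y ∈ dom k (δ ^ 2) i,
      ContinuousAt (fun y => pr k (δ ^ 2) (sw i (y, 1))) y := fun i y hy =>
    (continuousAt_pr (dom_mem hε1 hy)).comp (f := fun y : ℂ => sw i (y, 1)) (by fun_prop)
  obtain ⟨C, hM, hf⟩ := exists_atlas (E := EuclideanSpace ℝ (Fin 2)) (M := Surf k (δ ^ 2))
    (ψ := fun i x => pr k (δ ^ 2) (sw i (L2 x, 1))) (W := fun i => L2 ⁻¹' dom k (δ ^ 2) i)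
    (fun i => (isOpen_dom i).preimage L2.continuous)
    (fun i x hx => ((hcont i _ hx).comp L2.continuous.continuousAt).continuousWithinAt)
    (fun i x hx y hy h => L2.injective (dom_inj hε hε1 i hx hy h))
    (fun i V hV ho => by
      have := chart_open (k := k) hε (sw_sw i) (V := L2 '' V)
        (by rintro _ ⟨x, hx, rfl⟩; exact dom_mem hε1 (hV hx)) (L2.isOpenMap V ho)
      rwa [image_image] at this)
    (fun x => by
      obtain ⟨i, y, hy, h⟩ := dom_cover hε x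
      exact ⟨i, L2.symm y, by simpa using hy, by simpa using h⟩)
    (fun i j x hx y hy h => by
      obtain ⟨g, h1, h2, h3⟩ := chart_comp hε (sw_sw j) (dom_mem hε1 hx) (dom_mem hε1 hy) h
      refine ⟨fun x => L2.symm (g (L2 x)),
        L2.symm.contDiff.contDiffAt.comp x (h1.comp x L2.contDiff.contDiffAt), by simp [h2], ?_⟩
      filter_upwards [L2.continuous.continuousAt.eventually h3] with x' hx'
      simpa using hx')
  have hloc : ∀ i, ∀ x ∈ L2 ⁻¹' dom k (δ ^ 2) i,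
      ((fun m => L4 (G.map m)) ∘ fun x => pr k (δ ^ 2) (sw i (L2 x, 1))) =ᶠ[𝓝 x]
        L4 ∘ (fun y => tot k t (δ ^ 2) (sw i (y, 1))) ∘ L2 := by
    intro i x hx
    filter_upwards [((isOpen_dom i).preimage L2.continuous).mem_nhds hx] with x' hx'
    simp only [Function.comp, G.map_pr (dom_mem hε1 hx')]
  have hsm : ∀ i, ∀ y ∈ dom k (δ ^ 2) i,
      ContDiffAt ℝ ∞ (fun y => tot k t (δ ^ 2) (sw i (y, 1))) y := fun i y hy =>
    ContDiffAt.comp (g := tot k t (δ ^ 2)) (f := fun y : ℂ => sw i (y, 1)) y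
      (contDiffAt_tot G.t_pos hε (dom_mem hε1 hy))
      ((sw i).contDiff.comp (by fun_prop : ContDiff ℝ ∞ fun y : ℂ => (y, (1 : ℝ)))).contDiffAt
  obtain ⟨h1, h2⟩ := hf (fun m => L4 (G.map m)) (L4.continuous.comp G.continuous_map)
    (fun i x hx => (L4.contDiff.contDiffAt.comp x
      ((hsm i _ hx).comp x L2.contDiff.contDiffAt)).congr_of_eventuallyEq (hloc i x hx))
    (fun i x hx => by
      have hd := (hsm i _ hx).differentiableAt (by simp)
      have h3 := L4.hasFDerivAt.comp x (hd.hasFDerivAt.comp x L2.hasFDerivAt)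
      rw [(hloc i x hx).fderiv_eq, h3.fderiv]
      exact L4.injective.comp (((G.chart_imm hx).injective hd).comp L2.injective))
  have hlf : ∀ ξ : EuclideanSpace ℝ (Fin 4), ξ ≠ 0 → ∃ a b : ℂ, (a ≠ 0 ∨ b ≠ 0) ∧
      ∀ v, inner ℝ ξ (L4 v) = lf a b v := by
    intro ξ hξ
    obtain ⟨a, b, h⟩ := exists_lf ((innerSL ℝ ξ).comp L4.toContinuousLinearMap)
    refine ⟨a, b, ?_, h⟩
    by_contra hcon
    push Not at hcon
    have h3 := h (L4.symm ξ)
    simp [hcon.1, hcon.2, lf] at h3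
    exact hξ h3
  refine ⟨Surf k (δ ^ 2), inferInstance, t2Space_surf hε, hcomp, hconn, C, hM, hmodel,
    fun m => L4 (G.map m), h1, h2, L4.injective.comp G.injective, fun ξ c hξ => ?_,
    fun ξ c hξ => ?_⟩
  · obtain ⟨a, b, hab, h⟩ := hlf ξ hξ
    simp only [h]
    exact G.tpp hab c
  · obtain ⟨a, b, hab, h⟩ := hlf ξ hξ
    simp only [h]
    exact G.substantial hab c

end Pool.Agent.Lib.MP_a9c398_gt.CC
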