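import Pool.Agent.Lib.MP_a9c398_gt.CC.Aff

/-! The surface: the quotient of an open cone in `ℝ³` by scaling and by the cross-cap relation. -/

open Set Filter Topology
open scoped ContDiff ComplexConjugate

namespace Pool.Agent.Lib.MP_a9c398_gt.CC

variable {k : ℕ} {ε : ℝ}

/-- The open cone over the projective plane minus closed discs of radius `ε`. -/
def Om (k : ℕ) (ε : ℝ) : Set (ℂ × ℝ) :=
  {p | p ≠ 0 ∧ ∀ a : Fin k, ε * |p.2| < ‖p.1 - p.2 * cen a‖}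

/-- The cross-cap relation `conj ζ * ζ' = -ε` in homogeneous form. -/
def Glue (ε : ℝ) (a : Fin k) (p p' : ℂ × ℝ) : Prop :=
  conj (p.1 - p.2 * cen a) * (p'.1 - p'.2 * cen a) = -(ε * p.2 * p'.2)

/-- Scaling or the cross-cap relation. -/
def Rel (k : ℕ) (ε : ℝ) (p p' : ℂ × ℝ) : Prop :=
  (∃ r : ℝ, p' = r • p) ∨ ∃ a : Fin k, Glue ε a p p'

/-- The surface. -/
abbrev Surf (k : ℕ) (ε : ℝ) : Type := Quot fun p p' : Om k ε => Rel k ε p p'

theorem isOpen_Om (k : ℕ) (ε : ℝ) : IsOpen (Om k ε) := by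
  have : Om k ε = {p | p ≠ 0} ∩ ⋂ a : Fin k,
      {p : ℂ × ℝ | ε * |p.2| < ‖p.1 - p.2 * cen a‖} := by
    ext p; simp [Om]
  rw [this]
  exact isOpen_ne.inter (isOpen_iInter_of_finite fun a => isOpen_lt (by fun_prop) (by fun_prop))

theorem mem_Om_iff {p : ℂ × ℝ} (hz : p.2 ≠ 0) :
    p ∈ Om k ε ↔ ∀ a : Fin k, ε < ‖p.1 / p.2 - cen a‖ := by
  have h0 : p ≠ 0 := fun h => hz (by simp [h])
  have h1 : 0 < |p.2| := abs_pos.mpr hz
  simp only [Om, mem_ofPred_eq, ne_eq, h0, not_false_eq_true, true_and, norm_sub_eq hz]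
  refine forall_congr' fun a => ?_
  rw [mul_comm ε, mul_lt_mul_iff_right₀ h1]

theorem mem_Om_one {y : ℂ} : (y, (1 : ℝ)) ∈ Om k ε ↔ ∀ a : Fin k, ε < ‖y - cen a‖ := by
  rw [mem_Om_iff (by simp)]; simp

theorem smul_mem_Om {p : ℂ × ℝ} {r : ℝ} (hr : r ≠ 0) (hp : p ∈ Om k ε) : r • p ∈ Om k ε := by
  refine ⟨smul_ne_zero hr hp.1, fun a => ?_⟩
  have h1 : (r • p).1 - ((r • p).2 : ℝ) * (cen a : ℂ) = (r : ℂ) * (p.1 - p.2 * cen a) := by
    simp only [Prod.smul_fst, Prod.smul_snd, Complex.real_smul, smul_eq_mul]; push_cast; ring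
  rw [h1, norm_mul, Complex.norm_real, Real.norm_eq_abs, Prod.smul_snd, smul_eq_mul, abs_mul,
    mul_left_comm]
  exact mul_lt_mul_of_pos_left (hp.2 a) (abs_pos.mpr hr)

theorem glue_iff {a : Fin k} {p p' : ℂ × ℝ} (hz : p.2 ≠ 0) (hz' : p'.2 ≠ 0) :
    Glue ε a p p' ↔ conj (p.1 / p.2 - cen a) * (p'.1 / p'.2 - cen a) = -ε := by
  have h1 : (p.2 : ℂ) ≠ 0 := by exact_mod_cast hz
  have h2 : (p'.2 : ℂ) ≠ 0 := by exact_mod_cast hz'
  have h3 : conj (p.1 / p.2 - cen a) * (p'.1 / p'.2 - cen a) =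
      conj (p.1 - p.2 * cen a) * (p'.1 - p'.2 * cen a) / (p.2 * p'.2) := by
    simp only [map_sub, map_mul, map_div₀, Complex.conj_ofReal]
    field_simp
  rw [h3, div_eq_iff (mul_ne_zero h1 h2), Glue, mul_assoc, neg_mul]

theorem Glue.symm {a : Fin k} {p p' : ℂ × ℝ} (h : Glue ε a p p') : Glue ε a p' p := by
  unfold Glue at h ⊢
  have h' := congrArg conj h
  simp only [map_mul (starRingEnd ℂ) (conj _), Complex.conj_conj, map_neg,
    map_mul (starRingEnd ℂ) (_ * _), map_mul (starRingEnd ℂ) (ε : ℂ), Complex.conj_ofReal] at h'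
  linear_combination h'

theorem Glue.norm {a : Fin k} {p p' : ℂ × ℝ} (hε : 0 < ε) (h : Glue ε a p p') :
    ‖p.1 - p.2 * cen a‖ * ‖p'.1 - p'.2 * cen a‖ = ε * |p.2| * |p'.2| := by
  have h1 := congrArg Norm.norm h
  rwa [norm_mul, Complex.norm_conj, norm_neg, norm_mul, norm_mul, Complex.norm_real,
    Complex.norm_real, Complex.norm_real, Real.norm_of_nonneg hε.le, Real.norm_eq_abs,
    Real.norm_eq_abs] at h1

theorem Glue.ne (hε : 0 < ε) {a : Fin k} {p p' : ℂ × ℝ} (hp : p ∈ Om k ε)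
    (hp' : p' ∈ Om k ε) (h : Glue ε a p p') : p.2 ≠ 0 := by
  intro hz
  have h1 : 0 < ‖p.1 - p.2 * cen a‖ := lt_of_le_of_lt (by positivity) (hp.2 a)
  have h2 : 0 < ‖p'.1 - p'.2 * cen a‖ := lt_of_le_of_lt (by positivity) (hp'.2 _)
  have h3 := h.norm hε
  have h4 := mul_pos h1 h2
  rw [h3, hz] at h4
  simp at h4

theorem norm_glue (hε : 0 < ε) {ζ ζ' : ℂ} (h : conj ζ * ζ' = -ε) : ‖ζ‖ * ‖ζ'‖ = ε := by
  rw [← Complex.norm_conj ζ, ← norm_mul, h, norm_neg, Complex.norm_real,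
    Real.norm_of_nonneg hε.le]

theorem Glue.lt_one (hε : 0 < ε) {a : Fin k} {p p' : ℂ × ℝ} (hp : p ∈ Om k ε)
    (hp' : p' ∈ Om k ε) (h : Glue ε a p p') : ‖p.1 / p.2 - cen a‖ < 1 := by
  have hz := h.ne hε hp hp'
  have hz' := h.symm.ne hε hp' hp
  have h2 := (mem_Om_iff hz').mp hp' a
  have h3 := norm_glue hε ((glue_iff hz hz').mp h)
  by_contra hcon
  push Not at hcon
  nlinarith

theorem Glue.smul_right {a : Fin k} {p p' : ℂ × ℝ} (h : Glue ε a p p') (r : ℝ) :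
    Glue ε a p (r • p') := by
  unfold Glue at h ⊢
  simp only [Prod.smul_fst, Prod.smul_snd, Complex.real_smul, smul_eq_mul]
  push_cast
  linear_combination (r : ℂ) * h

theorem Glue.smul_left {a : Fin k} {p p' : ℂ × ℝ} (h : Glue ε a p p') (r : ℝ) :
    Glue ε a (r • p) p' := (h.symm.smul_right r).symm

theorem Rel.symm {p p' : ℂ × ℝ} (hp' : p' ≠ 0) (h : Rel k ε p p') : Rel k ε p' p := by
  rcases h with ⟨r, h⟩ | ⟨a, h⟩
  · exact Or.inl ⟨_, (smul_symm hp' h).2⟩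
  · exact Or.inr ⟨_, h.symm⟩

theorem Rel.trans (hε : 0 < ε) {p p' p'' : ℂ × ℝ} (hp : p ∈ Om k ε) (hp' : p' ∈ Om k ε)
    (hp'' : p'' ∈ Om k ε) (h : Rel k ε p p') (h' : Rel k ε p' p'') : Rel k ε p p'' := by
  rcases h with ⟨r, h⟩ | ⟨a, h⟩
  · rcases h' with ⟨r', h'⟩ | ⟨a, h'⟩
    · exact Or.inl ⟨r' * r, by rw [h', h, smul_smul]⟩
    · exact Or.inr ⟨a, by rw [(smul_symm hp'.1 h).2]; exact h'.smul_left _⟩
  · rcases h' with ⟨r', h'⟩ | ⟨b, h'⟩
    · exact Or.inr ⟨a, by rw [h']; exact h.smul_right _⟩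
    · have h1 := h.symm.lt_one hε hp' hp
      have h2 := h'.lt_one hε hp' hp''
      have hab : a = b := by
        by_contra hne
        linarith [far_of_near hne h1.le]
      subst hab
      have hz := h.ne hε hp hp'
      have hz' := h'.ne hε hp' hp''
      have hz'' := h'.symm.ne hε hp'' hp'
      have e1 := (glue_iff hz' hz).mp h.symm
      have e2 := (glue_iff hz' hz'').mp h'
      have hne : conj (p'.1 / p'.2 - cen a) ≠ 0 :=
        (map_ne_zero _).mpr (norm_pos_iff.mp (hε.trans ((mem_Om_iff hz').mp hp' _)))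
      have e3 : p.1 / p.2 = p''.1 / p''.2 := by
        apply mul_left_cancel₀ hne
        linear_combination e1 - e2
      exact Or.inl ⟨_, eq_smul_of_div_eq hz hz'' e3⟩

theorem rel_equivalence (hε : 0 < ε) : Equivalence fun p p' : Om k ε => Rel k ε p p' :=
  ⟨fun p => Or.inl ⟨1, by simp⟩, fun {_ p'} h => h.symm p'.2.1,
    fun {p p' p''} h h' => h.trans hε p.2 p'.2 p''.2 h'⟩

theorem mk_eq_iff (hε : 0 < ε) (p p' : Om k ε) :
    (Quot.mk _ p : Surf k ε) = Quot.mk _ p' ↔ Rel k ε p p' :=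
  Quot.eq.trans (rel_equivalence hε).eqvGen_iff

theorem one_zero_mem : ((1 : ℂ), (0 : ℝ)) ∈ Om k ε := ⟨by simp, by simp⟩

open Classical in
/-- The projection to the surface (with a junk value outside the cone). -/
noncomputable def pr (k : ℕ) (ε : ℝ) (p : ℂ × ℝ) : Surf k ε :=
  if h : p ∈ Om k ε then Quot.mk _ ⟨p, h⟩ else Quot.mk _ ⟨(1, 0), one_zero_mem⟩

theorem pr_of_mem {p : ℂ × ℝ} (h : p ∈ Om k ε) : pr k ε p = Quot.mk _ ⟨p, h⟩ := dif_pos h

theorem pr_eq_iff (hε : 0 < ε) {p p' : ℂ × ℝ} (h : p ∈ Om k ε) (h' : p' ∈ Om k ε) :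
    pr k ε p = pr k ε p' ↔ Rel k ε p p' := by
  rw [pr_of_mem h, pr_of_mem h', mk_eq_iff hε]

theorem pr_smul (hε : 0 < ε) {p : ℂ × ℝ} (h : p ∈ Om k ε) {r : ℝ} (hr : r ≠ 0) :
    pr k ε (r • p) = pr k ε p :=
  ((pr_eq_iff hε h (smul_mem_Om hr h)).mpr (Or.inl ⟨r, rfl⟩)).symm

theorem pr_surj (x : Surf k ε) : ∃ p ∈ Om k ε, pr k ε p = x := by
  obtain ⟨p, rfl⟩ := Quot.exists_rep x
  exact ⟨p, p.2, pr_of_mem p.2⟩

theorem continuous_mk : Continuous (Quot.mk _ : Om k ε → Surf k ε) := continuous_quot_mk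

theorem continuousOn_pr : ContinuousOn (pr k ε) (Om k ε) := by
  rw [continuousOn_iff_continuous_domRestrict]
  exact continuous_mk.congr fun p => (pr_of_mem p.2).symm

theorem continuousAt_pr {p : ℂ × ℝ} (h : p ∈ Om k ε) : ContinuousAt (pr k ε) p :=
  continuousOn_pr.continuousAt ((isOpen_Om k ε).mem_nhds h)

theorem rel_local (hε : 0 < ε) {p p' : ℂ × ℝ} (hp : p ∈ Om k ε) (hp' : p' ∈ Om k ε)
    (h : Rel k ε p p') : ∃ g : ℂ × ℝ → ℂ × ℝ, ContDiffAt ℝ ∞ g p' ∧ g p' = p ∧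
      ∀ᶠ w in 𝓝 p', g w ∈ Om k ε ∧ pr k ε (g w) = pr k ε w := by
  suffices H : ∃ g : ℂ × ℝ → ℂ × ℝ, ContDiffAt ℝ ∞ g p' ∧ g p' = p ∧
      ∀ᶠ w in 𝓝 p', Rel k ε (g w) w by
    obtain ⟨g, h1, h2, h3⟩ := H
    refine ⟨g, h1, h2, ?_⟩
    have h4 : ∀ᶠ w in 𝓝 p', g w ∈ Om k ε :=
      h1.continuousAt.eventually_mem (by rw [h2]; exact (isOpen_Om k ε).mem_nhds hp)
    filter_upwards [h3, h4, (isOpen_Om k ε).mem_nhds hp'] with w e1 e2 e3
    exact ⟨e2, (pr_eq_iff hε e2 e3).mpr e1⟩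
  rcases h with ⟨r, h⟩ | ⟨a, h⟩
  · obtain ⟨hr, h'⟩ := smul_symm hp'.1 h
    refine ⟨fun w => r⁻¹ • w, by fun_prop, h'.symm, Eventually.of_forall fun w => Or.inl ⟨r, ?_⟩⟩
    rw [smul_smul, mul_inv_cancel₀ hr, one_smul]
  · have hz := h.ne hε hp hp'
    have hz' := h.symm.ne hε hp' hp
    have e1 := (glue_iff hz' hz).mp h.symm
    have hne : conj (p'.1 / p'.2 - cen a) ≠ 0 :=
      (map_ne_zero _).mpr (norm_pos_iff.mp (hε.trans ((mem_Om_iff hz').mp hp' _)))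
    have hc : ContDiffAt ℝ ∞ (fun w : ℂ × ℝ => conj (w.1 / (w.2 : ℂ) - cen a)) p' :=
      Complex.conjCLE.contDiff.contDiffAt.comp p' ((contDiffAt_div hz').sub contDiffAt_const)
    refine ⟨fun w => p.2 • ((cen a : ℂ) + -ε * (conj (w.1 / w.2 - cen a))⁻¹, (1 : ℝ)), ?_, ?_, ?_⟩
    · exact ((contDiffAt_const.add (contDiffAt_const.mul (hc.inv hne))).prodMk
        contDiffAt_const).const_smul _
    · conv_rhs => rw [eq_smul_one hz]
      simp only
      rw [← e1, mul_comm (conj _), mul_assoc, mul_inv_cancel₀ hne, mul_one, add_sub_cancel]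
    · filter_upwards [hc.continuousAt.eventually_ne hne,
        continuous_snd.continuousAt.eventually_ne hz'] with w h1 h2
      refine Or.inr ⟨a, Glue.smul_left (Glue.symm ?_) _⟩
      rw [glue_iff h2 (by simp)]
      simp only [Complex.ofReal_one, div_one, add_sub_cancel_left]
      rw [mul_left_comm, mul_inv_cancel₀ h1, mul_one]

theorem isOpen_image_pr (hε : 0 < ε) {V : Set (ℂ × ℝ)} (hV : V ⊆ Om k ε) (ho : IsOpen V) :
    IsOpen (pr k ε '' V) := by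
  rw [← (isQuotientMap_quot_mk (r := fun p p' : Om k ε => Rel k ε p p')).isOpen_preimage,
    isOpen_iff_mem_nhds]
  rintro p' ⟨p, hp, hpp⟩
  rw [← pr_of_mem p'.2, pr_eq_iff hε (hV hp) p'.2] at hpp
  obtain ⟨g, h1, h2, h3⟩ := rel_local hε (hV hp) p'.2 hpp
  have h4 : ∀ᶠ w in 𝓝 (p' : ℂ × ℝ), g w ∈ V :=
    h1.continuousAt.eventually_mem (by rw [h2]; exact ho.mem_nhds hp)
  filter_upwards [continuous_subtype_val.continuousAt.eventually (h3.and h4)] with w hw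
  exact ⟨g w, hw.2, by rw [hw.1.2, pr_of_mem w.2]⟩

theorem isOpenQuotientMap_mk (hε : 0 < ε) : IsOpenQuotientMap (Quot.mk _ : Om k ε → Surf k ε) := by
  refine ⟨Quot.mk_surjective, continuous_mk, fun U hU => ?_⟩
  have h1 := isOpen_image_pr hε (Subtype.coe_image_subset _ U)
    ((isOpen_Om k ε).isOpenMap_subtype_val U hU)
  rw [image_image, image_congr fun p _ => pr_of_mem p.2] at h1
  exact h1

theorem t2Space_surf (hε : 0 < ε) : T2Space (Surf k ε) := by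
  rw [t2Space_iff_of_isOpenQuotientMap (isOpenQuotientMap_mk hε)]
  have : {q : Om k ε × Om k ε | (Quot.mk _ q.1 : Surf k ε) = Quot.mk _ q.2} =
      ({q : Om k ε × Om k ε | q.1.1.1.re * q.2.1.2 = q.2.1.1.re * q.1.1.2} ∩
        ({q | q.1.1.1.im * q.2.1.2 = q.2.1.1.im * q.1.1.2} ∩
          {q | q.1.1.1.re * q.2.1.1.im = q.2.1.1.re * q.1.1.1.im})) ∪
      ⋃ a : Fin k, {q | Glue ε a q.1.1 q.2.1} := by
    ext q
    rw [mem_ofPred_eq, mk_eq_iff hε, Rel, exists_smul_iff q.1.2.1]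
    simp only [mem_ofPred_eq, mem_union, mem_inter_iff, mem_iUnion]
  rw [this]
  refine IsClosed.union ((isClosed_eq (by fun_prop) (by fun_prop)).inter
    ((isClosed_eq (by fun_prop) (by fun_prop)).inter (isClosed_eq (by fun_prop) (by fun_prop))))
    (isClosed_iUnion_of_finite fun a => isClosed_eq (by fun_prop) (by fun_prop))

end Pool.Agent.Lib.MP_a9c398_gt.CC
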